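import Mathlib

attribute [-instance] Module.FaithfullyFlat.of_isIntegral_of_isDomain Submodule.module' SetLike.smul'
  IdemSemiring.toCanonicallyOrderedAdd AddQuantale.instAddLeftMono RKHS.instFunLike instCoeTCOfCoe
  IdemSemiring.toMulLeftMono SubmoduleClass.module LieAlgebra.toModule Algebra.toModule
  instCoeHTCTOfCoeTailOfCoeHTC LieAdmissibleAlgebra.toModule covariant_swap_mul_of_covariant_mul
  LeftPreLieAlgebra.toModule RightPreLieAlgebra.toModule NumberField.to_charZero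
  instCoeHTCOfCoeHeadOfCoeOTC AddQuantale.instAddRightMono
  ContinuousSemilinearMapClass.toSemilinearMapClass IsOrderedMonoid.toMulLeftMono
  AlgHom.instNonUnitalAlgHomClassOfAlgHomClass MonTypeEquivalenceMon.monMonoid
  ContinuousMonoidHom.instCoeOutOfMonoidHomClassOfContinuousMapClass Quantale.instMulRightMono
  Quantale.instMulLeftMono SetLike.GradeZero.instSemiring Algebra.Smooth.flat littleWedderburn
  instCharZeroOfIsSemireal CoalgHomClass.toSemilinearMapClass instCoeOutOfCoeFun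
  MulSemiringAction.toDistribMulAction NormedSpace.toModule
  SemilinearIsometryClass.toSemilinearMapClass instCoeTOfCoeDep
  NonUnitalAlgHomClass.instLinearMapClass RingHomClass.toLinearMapClassNNRat Submodule.IsLattice.free
  Nontrivial.to_nonempty GrpTypeEquivalenceGrp.grpGroup
  NonUnitalAlgSemiHomClass.toDistribMulActionSemiHomClass RingConeClass.toSubsemiringClass
  RingHomClass.toLinearMapClassRat CanonicallyOrderedAdd.toMulLeftMono RCLike.charZero_rclike
  Fintype.decidableForallFintype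
  NonUnitalAlgHomClass.instSemilinearMapClassOfNonUnitalAlgSemiHomClassToMonoidHomRingHom
  NeZero.of_gt' CompletePartialOrder.toPartialOrder TestFunctionClass.toDFunLike
  CommRing.Pic.instFreeOfSubsingleton AddGroupConeClass.toAddSubmonoidClass Zero.instNonempty
  AlgHomClass.linearMapClass ContDiffMapSupportedInClass.toDFunLike SetLike.GradeZero.instMonoid
  IsometryClass.instCoeOutIsometryEquiv SubringClass.toCommRing bot_nonempty instSMulZeroClass

section
/-! Twisted Wronskians of real polynomials and a zero estimate (helper25). -/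

open Polynomial

namespace H25E

/-- The twisted derivation `p ↦ p' + j p`. -/
noncomputable def DD (j : ℝ) : Module.End ℝ ℝ[X] := derivative + j • (1 : Module.End ℝ ℝ[X])

lemma DD_apply (j : ℝ) (p : ℝ[X]) : DD j p = derivative p + C j * p := by
  simp only [DD, LinearMap.add_apply, LinearMap.smul_apply, Module.End.one_apply, smul_eq_C_mul]

lemma DD_pow_succ (j : ℝ) (k : ℕ) (p : ℝ[X]) : (DD j ^ (k + 1)) p = DD j ((DD j ^ k) p) := by
  rw [pow_succ', Module.End.mul_apply]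

lemma natDegree_DD_le (j : ℝ) (p : ℝ[X]) : (DD j p).natDegree ≤ p.natDegree := by
  rw [DD_apply]
  refine (natDegree_add_le _ _).trans (max_le ?_ ?_)
  · exact (natDegree_derivative_le p).trans (Nat.sub_le _ _)
  · exact natDegree_C_mul_le _ _

lemma natDegree_DD_pow_le (j : ℝ) (k : ℕ) (p : ℝ[X]) :
    ((DD j ^ k) p).natDegree ≤ p.natDegree := by
  induction k with
  | zero => simp
  | succ k ih => rw [DD_pow_succ]; exact (natDegree_DD_le _ _).trans ih

lemma coeff_X_mul_derivative (b : ℝ[X]) (n : ℕ) :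
    (X * derivative b).coeff n = n * b.coeff n := by
  cases n with
  | zero => simp
  | succ n => rw [coeff_X_mul, coeff_derivative]; push_cast; ring

lemma natDegree_X_mul_derivative_le (b : ℝ[X]) : (X * derivative b).natDegree ≤ b.natDegree := by
  rw [natDegree_le_iff_coeff_eq_zero]
  intro n hn
  rw [coeff_X_mul_derivative, coeff_eq_zero_of_natDegree_lt hn, mul_zero]

lemma natDegree_eq_of_wr {a b : ℝ[X]} (ha : a ≠ 0) (hb : b ≠ 0)
    (h : a * derivative b = b * derivative a) : a.natDegree = b.natDegree := by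
  have h1 : a * (X * derivative b) = (X * derivative a) * b := by
    linear_combination X * h
  have h2 := congrArg (fun q => coeff q (a.natDegree + b.natDegree)) h1
  beta_reduce at h2
  rw [coeff_mul_add_eq_of_natDegree_le le_rfl (natDegree_X_mul_derivative_le b),
    coeff_mul_add_eq_of_natDegree_le (natDegree_X_mul_derivative_le a) le_rfl,
    coeff_X_mul_derivative, coeff_X_mul_derivative] at h2
  have ha' : a.coeff a.natDegree ≠ 0 := mt leadingCoeff_eq_zero.1 ha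
  have hb' : b.coeff b.natDegree ≠ 0 := mt leadingCoeff_eq_zero.1 hb
  have h3 : (a.natDegree : ℝ) = b.natDegree := by
    have : a.coeff a.natDegree * b.coeff b.natDegree * ((a.natDegree : ℝ) - b.natDegree) = 0 := by
      linear_combination -h2
    rcases mul_eq_zero.1 this with h | h
    · exact absurd h (mul_ne_zero ha' hb')
    · linarith only [h]
  exact_mod_cast h3

lemma prop_of_wr {a b : ℝ[X]} {i j : ℝ} (ha : a ≠ 0)
    (h : a * (derivative b - C j * b) - b * (derivative a - C i * a) = 0) :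
    ∃ c : ℝ, b = C c * a ∧ (j ≠ i → c = 0) := by
  by_cases hb : b = 0
  · exact ⟨0, by simp [hb], fun _ => rfl⟩
  have ha' : a.coeff a.natDegree ≠ 0 := mt leadingCoeff_eq_zero.1 ha
  have hb' : b.coeff b.natDegree ≠ 0 := mt leadingCoeff_eq_zero.1 hb
  have hij : j = i := by
    have h1 : a * derivative b - derivative a * b = C (j - i) * (a * b) := by
      rw [map_sub]; linear_combination h
    have h2 := congrArg (fun q => coeff q (a.natDegree + b.natDegree)) h1
    simp only [coeff_sub, coeff_C_mul] at h2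
    rw [coeff_mul_add_eq_of_natDegree_le le_rfl
        ((natDegree_derivative_le b).trans (Nat.sub_le _ _)),
      coeff_mul_add_eq_of_natDegree_le ((natDegree_derivative_le a).trans (Nat.sub_le _ _)) le_rfl,
      coeff_mul_add_eq_of_natDegree_le le_rfl le_rfl, coeff_derivative, coeff_derivative,
      coeff_eq_zero_of_natDegree_lt (Nat.lt_succ_self a.natDegree),
      coeff_eq_zero_of_natDegree_lt (Nat.lt_succ_self b.natDegree)] at h2
    have : (j - i) * (a.coeff a.natDegree * b.coeff b.natDegree) = 0 := by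
      linear_combination -h2
    rcases mul_eq_zero.1 this with h | h
    · linarith
    · exact absurd h (mul_ne_zero ha' hb')
  subst hij
  have h1 : a * derivative b = b * derivative a := by linear_combination h
  have hd := natDegree_eq_of_wr ha hb h1
  refine ⟨b.coeff b.natDegree / a.coeff a.natDegree, ?_, fun h => absurd rfl h⟩
  by_contra hne
  have hne' : b - C (b.coeff b.natDegree / a.coeff a.natDegree) * a ≠ 0 := sub_ne_zero.2 hne
  have h2 : a * derivative (b - C (b.coeff b.natDegree / a.coeff a.natDegree) * a) =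
      (b - C (b.coeff b.natDegree / a.coeff a.natDegree) * a) * derivative a := by
    simp only [derivative_sub, derivative_mul, derivative_C, zero_mul, zero_add]
    linear_combination h1
  have hd2 := natDegree_eq_of_wr ha hne' h2
  have h3 : (b - C (b.coeff b.natDegree / a.coeff a.natDegree) * a).coeff a.natDegree ≠ 0 := by
    have := mt leadingCoeff_eq_zero.1 hne'
    rwa [leadingCoeff, ← hd2] at this
  apply h3
  rw [coeff_sub, coeff_C_mul, div_mul_cancel₀ _ ha', hd, sub_self]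

/-- Independence inside each twist class. -/
def HInd {ι : Type} [Fintype ι] (j : ι → ℝ) (p : ι → ℝ[X]) : Prop :=
  ∀ (c : ι → ℝ) (j0 : ℝ), (∀ r, j r ≠ j0 → c r = 0) → ∑ r, C (c r) * p r = 0 → ∀ r, c r = 0

lemma wr_ker {ι : Type} [Fintype ι] [DecidableEq ι] (j : ι → ℝ) (p : ι → ℝ[X]) (hp : HInd j p)
    (s : Finset ι) : ∀ b : ι → ℝ[X],
      (∀ k < s.card, ∑ r ∈ s, b r * (DD (j r) ^ k) (p r) = 0) → ∀ r ∈ s, b r = 0 := by
  induction s using Finset.induction_on with
  | empty => intro b _ r hr; simp at hr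
  | insert a s has ih =>
    intro b hb
    rw [Finset.card_insert_of_notMem has] at hb
    by_cases hba : b a = 0
    · have := ih b (fun k hk => by
        have := hb k (by omega)
        rwa [Finset.sum_insert has, hba, zero_mul, zero_add] at this)
      intro r hr
      rcases Finset.mem_insert.1 hr with rfl | hr
      · exact hba
      · exact this r hr
    exfalso
    have hd : ∀ k < s.card, ∑ r ∈ insert a s,
        (derivative (b r) - C (j r) * b r) * (DD (j r) ^ k) (p r) = 0 := by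
      intro k hk
      have h1 := congrArg derivative (hb k (by omega))
      have h2 := hb (k + 1) (by omega)
      rw [map_sum, map_zero] at h1
      rw [← sub_zero (0 : ℝ[X])]
      nth_rewrite 1 [← h1]
      rw [← h2, ← Finset.sum_sub_distrib]
      refine Finset.sum_congr rfl fun r _ => ?_
      rw [DD_pow_succ, DD_apply, derivative_mul]
      ring
    have h3 := ih (fun r => b a * (derivative (b r) - C (j r) * b r) -
        b r * (derivative (b a) - C (j a) * b a)) (fun k hk => by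
      have h1 := hd k hk
      have h2 := hb k (by omega)
      rw [Finset.sum_insert has] at h1 h2
      have e : ∑ r ∈ s, (b a * (derivative (b r) - C (j r) * b r) -
          b r * (derivative (b a) - C (j a) * b a)) * (DD (j r) ^ k) (p r) =
          b a * ∑ r ∈ s, (derivative (b r) - C (j r) * b r) * (DD (j r) ^ k) (p r) -
          (derivative (b a) - C (j a) * b a) * ∑ r ∈ s, b r * (DD (j r) ^ k) (p r) := by
        rw [Finset.mul_sum, Finset.mul_sum, ← Finset.sum_sub_distrib]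
        exact Finset.sum_congr rfl fun r _ => by ring
      rw [e]
      linear_combination b a * h1 - (derivative (b a) - C (j a) * b a) * h2)
    have h4 : ∀ r, ∃ c : ℝ, (r ∈ s → b r = C c * b a) ∧ (j r ≠ j a → c = 0) ∧
        (r ∉ s → c = if r = a then 1 else 0) := by
      intro r
      by_cases hr : r ∈ s
      · obtain ⟨c, hc1, hc2⟩ := prop_of_wr hba (h3 r hr)
        exact ⟨c, fun _ => hc1, hc2, fun h => absurd hr h⟩
      · refine ⟨if r = a then 1 else 0, fun h => absurd h hr, fun h => ?_, fun _ => rfl⟩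
        rw [if_neg]; rintro rfl; exact h rfl
    choose c hc1 hc2 hc3 using h4
    have h5 := hb 0 (by omega)
    simp only [pow_zero, Module.End.one_apply] at h5
    have hca : c a = 1 := by rw [hc3 a has, if_pos rfl]
    have h6 : b a * ∑ r, C (c r) * p r = 0 := by
      rw [← h5, ← Finset.sum_subset (Finset.subset_univ (insert a s)), Finset.mul_sum]
      · refine Finset.sum_congr rfl fun r hr => ?_
        rcases Finset.mem_insert.1 hr with rfl | hr
        · rw [hca]; simp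
        · rw [hc1 r hr]; ring
      · intro r _ hr
        rw [Finset.mem_insert, not_or] at hr
        rw [hc3 r hr.2, if_neg hr.1]; simp
    have h7 := hp c (j a) hc2 ((mul_eq_zero.1 h6).resolve_left hba) a
    rw [hca] at h7
    exact one_ne_zero h7

/-- The twisted Wronskian matrix. -/
noncomputable def WM {N : ℕ} (j : Fin N → ℝ) (p : Fin N → ℝ[X]) : Matrix (Fin N) (Fin N) ℝ[X] :=
  Matrix.of fun k r => (DD (j r) ^ (k : ℕ)) (p r)

lemma wr_ne_zero {N : ℕ} (j : Fin N → ℝ) (p : Fin N → ℝ[X]) (hp : HInd j p) :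
    (WM j p).det ≠ 0 := by
  intro h
  obtain ⟨v, hv, hv0⟩ := Matrix.exists_mulVec_eq_zero_iff.2 h
  apply hv
  funext r
  refine wr_ker j p hp Finset.univ v (fun k hk => ?_) r (Finset.mem_univ r)
  have hk' : k < N := by simpa only [Finset.card_univ, Fintype.card_fin] using hk
  have := congrFun hv0 ⟨k, hk'⟩
  simp only [Matrix.mulVec, dotProduct, WM, Matrix.of_apply, Pi.zero_apply] at this
  rw [← this]
  exact Finset.sum_congr rfl fun r _ => mul_comm _ _

lemma natDegree_wr_le {N δ : ℕ} (j : Fin N → ℝ) (p : Fin N → ℝ[X])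
    (hdeg : ∀ r, (p r).natDegree ≤ δ) : (WM j p).det.natDegree ≤ N * δ := by
  rw [Matrix.det_apply]
  refine natDegree_sum_le_of_forall_le _ _ fun σ _ => ?_
  refine (natDegree_smul_le _ _).trans ((natDegree_prod_le _ _).trans ?_)
  calc ∑ i : Fin N, (WM j p (σ i) i).natDegree ≤ ∑ _i : Fin N, δ :=
        Finset.sum_le_sum fun i _ => (natDegree_DD_pow_le _ _ _).trans (hdeg i)
    _ = N * δ := by simp only [Finset.sum_const, Finset.card_univ, Fintype.card_fin, smul_eq_mul]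

/-- The exponential series `exp (j X)`. -/
noncomputable def EE (j : ℝ) : PowerSeries ℝ := PowerSeries.mk fun n => j ^ n / (n.factorial : ℝ)

lemma derivative_EE (j : ℝ) : PowerSeries.derivative ℝ (EE j) = PowerSeries.C j * EE j := by
  ext n
  rw [PowerSeries.coeff_derivative, PowerSeries.coeff_C_mul]
  simp only [EE, PowerSeries.coeff_mk, Nat.factorial_succ]
  have : (n.factorial : ℝ) ≠ 0 := by positivity
  push_cast
  field_simp
  ring

lemma constantCoeff_EE (j : ℝ) : PowerSeries.constantCoeff (EE j) = 1 := by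
  rw [← PowerSeries.coeff_zero_eq_constantCoeff_apply]; simp [EE]

lemma derivative_EE_mul (j : ℝ) (q : ℝ[X]) :
    PowerSeries.derivative ℝ (EE j * (q : PowerSeries ℝ)) = EE j * (DD j q : ℝ[X]) := by
  rw [Derivation.leibniz, derivative_EE, PowerSeries.derivative_coe, DD_apply]
  simp only [smul_eq_mul, Polynomial.coe_add, Polynomial.coe_mul, Polynomial.coe_C]
  ring

lemma coeff_eq_zero_of_chain (H : ℕ → PowerSeries ℝ) (T : ℕ)
    (hd : ∀ k, PowerSeries.derivative ℝ (H k) = H (k + 1))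
    (h0 : ∀ k < T, PowerSeries.constantCoeff (H k) = 0) :
    ∀ n k, n + k < T → PowerSeries.coeff n (H k) = 0 := by
  intro n
  induction n with
  | zero => intro k hk; rw [PowerSeries.coeff_zero_eq_constantCoeff_apply]; exact h0 k (by omega)
  | succ n ih =>
    intro k hk
    have h1 := ih (k + 1) (by omega)
    rw [← hd, PowerSeries.coeff_derivative] at h1
    exact (mul_eq_zero.1 h1).resolve_right (by positivity)

lemma X_pow_dvd_wr {N m T : ℕ} (j : Fin N → ℝ) (p : Fin N → ℝ[X])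
    (A : Matrix (Fin m) (Fin N) ℝ) (B : Matrix (Fin N) (Fin m) ℝ) (hAB : A * B = 1)
    (h0 : ∀ s, ∀ k < T, ∑ r, A s r * ((DD (j r) ^ k) (p r)).eval 0 = 0) :
    X ^ (m * (T - N)) ∣ (WM j p).det := by
  classical
  set x : PowerSeries ℝ := PowerSeries.X ^ (T - N) with hx
  let H : Fin m → ℕ → PowerSeries ℝ := fun s k =>
    ∑ r, PowerSeries.C (A s r) * (EE (j r) * ((DD (j r) ^ k) (p r) : ℝ[X]))
  have hH : ∀ s, ∀ k : Fin N, ∃ q, H s k = x * q := by
    intro s k
    refine PowerSeries.X_pow_dvd_iff.2 fun n hn => ?_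
    refine coeff_eq_zero_of_chain (H s) T (fun k => ?_) (fun k hk => ?_) n k (by omega)
    · simp only [H, map_sum]
      refine Finset.sum_congr rfl fun r _ => ?_
      rw [Derivation.leibniz, PowerSeries.derivative_C, derivative_EE_mul, DD_pow_succ]
      simp
    · simp only [H, map_sum, map_mul, PowerSeries.constantCoeff_C, constantCoeff_EE, one_mul]
      refine Eq.trans ?_ (h0 s k hk)
      refine Finset.sum_congr rfl fun r _ => ?_
      rw [← PowerSeries.coeff_zero_eq_constantCoeff_apply, Polynomial.coeff_coe,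
        coeff_zero_eq_eval_zero]
  choose Hq hHq using hH
  let Wr : Matrix (Fin N) (Fin N) (PowerSeries ℝ) :=
    (WM j p).map (coeToPowerSeries.ringHom) * Matrix.diagonal fun r => EE (j r)
  let AT : Matrix (Fin N) (Fin m) (PowerSeries ℝ) := (A.map PowerSeries.C).transpose
  let BT : Matrix (Fin m) (Fin N) (PowerSeries ℝ) := (B.map PowerSeries.C).transpose
  have hBA : BT * AT = 1 := by
    simp only [BT, AT]
    rw [← Matrix.transpose_mul, ← Matrix.map_mul, hAB]
    simp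
  let Q : Matrix (Fin N) (Fin m) (PowerSeries ℝ) := Matrix.of fun k s => Hq s k
  have hWA : Wr * AT = x • Q := by
    refine Matrix.ext fun k s => ?_
    simp only [Wr, AT, Q, Matrix.mul_apply, Matrix.smul_apply, Matrix.of_apply, smul_eq_mul,
      ← hHq, H, Matrix.transpose_apply, Matrix.map_apply, Matrix.diagonal_apply, WM,
      coeToPowerSeries.ringHom_apply, mul_ite, mul_zero, Finset.sum_ite_eq', Finset.mem_univ,
      if_true]
    exact Finset.sum_congr rfl fun r _ => by ring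
  have hfac : Wr = (Q * BT + Wr * (1 - AT * BT)) * (1 + AT * ((x - 1) • BT)) := by
    have e1 : BT * (AT * BT) = BT := by rw [← Matrix.mul_assoc, hBA, Matrix.one_mul]
    have e2 : (1 - AT * BT) * (AT * BT) = 0 := by
      rw [Matrix.sub_mul, Matrix.one_mul, Matrix.mul_assoc, e1, sub_self]
    have e3 : Wr * (AT * BT) = x • (Q * BT) := by
      rw [← Matrix.mul_assoc, hWA, Matrix.smul_mul]
    rw [Matrix.mul_smul, Matrix.mul_add, Matrix.mul_one, Matrix.mul_smul, Matrix.add_mul,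
      Matrix.mul_assoc Q, e1, Matrix.mul_assoc Wr, e2, Matrix.mul_zero, add_zero, Matrix.mul_sub,
      Matrix.mul_one, e3, sub_smul, one_smul]
    abel
  have hdet : (1 + AT * ((x - 1) • BT)).det = x ^ m := by
    rw [Matrix.det_one_add_mul_comm, Matrix.smul_mul, hBA]
    have : (1 : Matrix (Fin m) (Fin m) (PowerSeries ℝ)) + (x - 1) • 1 = x • 1 := by
      rw [sub_smul, one_smul]; abel
    rw [this, Matrix.det_smul]; simp only [Fintype.card_fin, Matrix.det_one, mul_one]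
  have h1 : x ^ m ∣ Wr.det := by
    rw [hfac, Matrix.det_mul, hdet]; exact Dvd.intro_left _ rfl
  have h2 : Wr.det = ((WM j p).det : ℝ[X]) * ∏ r, EE (j r) := by
    simp only [Wr]
    rw [Matrix.det_mul, Matrix.det_diagonal, ← RingHom.mapMatrix_apply, ← RingHom.map_det]
    rfl
  have hu : IsUnit (∏ r, EE (j r)) := by
    rw [PowerSeries.isUnit_iff_constantCoeff, map_prod]
    simp only [constantCoeff_EE, Finset.prod_const_one, isUnit_iff_ne_zero, ne_eq, one_ne_zero, not_false_eq_true]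
  rw [h2, hu.dvd_mul_right, hx, ← pow_mul, mul_comm] at h1
  rw [Polynomial.X_pow_dvd_iff]
  intro d hd
  rw [← Polynomial.coeff_coe]
  exact PowerSeries.X_pow_dvd_iff.1 h1 d hd

lemma taylor_DD_pow (x j : ℝ) (k : ℕ) (p : ℝ[X]) :
    taylor x ((DD j ^ k) p) = (DD j ^ k) (taylor x p) := by
  induction k with
  | zero => simp
  | succ k ih =>
    rw [DD_pow_succ, DD_pow_succ, ← ih, DD_apply, DD_apply, map_add, taylor_mul, taylor_C,
      taylor_apply, taylor_apply, derivative_comp]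
    simp

theorem zero_est {N m T K δ : ℕ} (j : Fin N → ℝ) (p : Fin N → ℝ[X]) (hp : HInd j p)
    (hdeg : ∀ r, (p r).natDegree ≤ δ)
    (A : Matrix (Fin m) (Fin N) ℝ) (B : Matrix (Fin N) (Fin m) ℝ) (hAB : A * B = 1)
    (h0 : ∀ s, ∀ k < T, ∑ r, A s r * ((DD (j r) ^ k) (p r)).eval 0 = 0)
    (σ : Fin N → ℝ) (r0 : Fin N) (hσ : σ r0 ≠ 0)
    (h1 : ∀ k < K, ∑ r, σ r * ((DD (j r) ^ k) (p r)).eval 1 = 0) :
    m * (T - N) + (K - N) ≤ N * δ := by
  have hw := wr_ne_zero j p hp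
  have d0 := X_pow_dvd_wr j p A B hAB h0
  have d1 := X_pow_dvd_wr (T := K) j (fun r => taylor 1 (p r))
    (Matrix.of fun (_ : Fin 1) r => σ r)
    (Matrix.of fun r (_ : Fin 1) => if r = r0 then (σ r0)⁻¹ else 0) (by
      ext a b
      simp only [Subsingleton.elim a b, Matrix.mul_apply, Matrix.of_apply, mul_ite, mul_zero, Finset.sum_ite_eq', Finset.mem_univ, ↓ reduceIte, ne_eq, hσ, not_false_eq_true, mul_inv_cancel₀, Matrix.one_apply]) (by
      intro s k hk
      refine Eq.trans ?_ (h1 k hk)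
      refine Finset.sum_congr rfl fun r _ => ?_
      rw [← taylor_DD_pow, taylor_eval, zero_add, Matrix.of_apply])
  have e : (WM j fun r => taylor 1 (p r)).det = taylor 1 (WM j p).det := by
    have := (taylorAlgHom (1 : ℝ)).toRingHom.map_det (WM j p)
    refine Eq.trans ?_ this.symm
    congr 1
    ext k r : 2
    simp only [WM, Matrix.of_apply, AlgHom.toRingHom_eq_coe, RingHom.mapMatrix_apply, RingHom.coe_coe, Matrix.map_apply, taylorAlgHom_apply, taylor_DD_pow]
  rw [e, one_mul] at d1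
  have d2 : (X - C 1) ^ (K - N) ∣ (WM j p).det := by
    obtain ⟨q, hq⟩ := d1
    have := congrArg (taylor (-1)) hq
    rw [taylor_taylor, neg_add_cancel, taylor_zero, taylor_mul, taylor_X_pow] at this
    rw [this]
    refine Dvd.dvd.mul_right (dvd_of_eq ?_) _
    simp only [map_one, sub_eq_add_neg, map_neg]
  have hc : IsCoprime ((X : ℝ[X]) ^ (m * (T - N))) ((X - C 1) ^ (K - N)) := by
    refine IsCoprime.pow ⟨1, -1, ?_⟩
    simp
  have d3 := natDegree_le_of_dvd (hc.mul_dvd d0 d2) hw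
  rw [natDegree_mul (pow_ne_zero _ X_ne_zero) (pow_ne_zero _ (X_sub_C_ne_zero 1)),
    natDegree_pow, natDegree_pow, natDegree_X, natDegree_X_sub_C, mul_one, mul_one] at d3
  exact d3.trans (natDegree_wr_le j p hdeg)

end H25E

end

section
/-! The auxiliary polynomial at one finite level (helper25). -/

open Polynomial

namespace H25E

/-- Divided-power coefficients bounded by `H`. -/
def Gb (H : ℝ) (p : ℝ[X]) : Prop := ∀ l, |(l.factorial : ℝ) * p.coeff l| ≤ H

/-- Divided-power coefficients are integers. -/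
def Gi (p : ℝ[X]) : Prop := ∀ l, ∃ z : ℤ, (l.factorial : ℝ) * p.coeff l = z

lemma fac_coeff_DD (j : ℝ) (p : ℝ[X]) (l : ℕ) : (l.factorial : ℝ) * (DD j p).coeff l =
    ((l + 1).factorial : ℝ) * p.coeff (l + 1) + j * (l.factorial * p.coeff l) := by
  rw [DD_apply, coeff_add, coeff_derivative, coeff_C_mul, Nat.factorial_succ]
  push_cast; ring

lemma Gb.DD_pow {H j : ℝ} (hj : 0 ≤ j) {p : ℝ[X]} (h : Gb H p) (k : ℕ) :
    Gb ((1 + j) ^ k * H) ((DD j ^ k) p) := by
  induction k with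
  | zero => simpa using h
  | succ k ih =>
    intro l
    rw [DD_pow_succ, fac_coeff_DD]
    refine (abs_add_le _ _).trans ?_
    rw [abs_mul j, abs_of_nonneg hj]
    have h1 := ih (l + 1)
    have h2 := mul_le_mul_of_nonneg_left (ih l) hj
    rw [pow_succ]
    linarith

lemma Gi.DD_pow (j : ℕ) {p : ℝ[X]} (h : Gi p) (k : ℕ) : Gi ((DD j ^ k) p) := by
  induction k with
  | zero => simpa using h
  | succ k ih =>
    intro l
    obtain ⟨z1, h1⟩ := ih (l + 1)
    obtain ⟨z2, h2⟩ := ih l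
    refine ⟨z1 + j * z2, ?_⟩
    rw [DD_pow_succ, fac_coeff_DD, h1, h2]
    push_cast; ring

lemma Gb.nonneg {H : ℝ} {p : ℝ[X]} (h : Gb H p) : 0 ≤ H := (abs_nonneg _).trans (h 0)

lemma Gb.eval_le {H : ℝ} {p : ℝ[X]} (h : Gb H p) {x : ℝ} (hx : x ∈ Set.Icc (0 : ℝ) 1) :
    |p.eval x| ≤ 3 * H := by
  rw [eval_eq_sum_range]
  refine (Finset.abs_sum_le_sum_abs _ _).trans ?_
  calc ∑ i ∈ Finset.range (p.natDegree + 1), |p.coeff i * x ^ i|
      ≤ ∑ i ∈ Finset.range (p.natDegree + 1), H * ((1 : ℝ) ^ i / i.factorial) := by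
        refine Finset.sum_le_sum fun i _ => ?_
        have hf : (0 : ℝ) < i.factorial := by positivity
        have h1 := h i
        rw [abs_mul, abs_of_pos hf] at h1
        rw [abs_mul, one_pow, abs_of_nonneg (pow_nonneg hx.1 i), mul_one_div, le_div_iff₀ hf]
        have h2 : x ^ i ≤ 1 := pow_le_one₀ hx.1 hx.2
        calc |p.coeff i| * x ^ i * i.factorial ≤ |p.coeff i| * 1 * i.factorial := by gcongr
          _ ≤ H := by linarith
    _ = H * ∑ i ∈ Finset.range (p.natDegree + 1), ((1 : ℝ) ^ i / i.factorial) := by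
        rw [Finset.mul_sum]
    _ ≤ H * 3 := mul_le_mul_of_nonneg_left
        ((Real.sum_le_exp_of_nonneg zero_le_one _).trans Real.exp_one_lt_three.le) h.nonneg
    _ = 3 * H := mul_comm _ _

lemma Gi.eval_one {p : ℝ[X]} (h : Gi p) {d : ℕ} (hd : p.natDegree ≤ d) :
    ∃ z : ℤ, (d.factorial : ℝ) * p.eval 1 = z := by
  choose z hz using h
  refine ⟨∑ i ∈ Finset.range (p.natDegree + 1), (d.factorial / i.factorial : ℕ) * z i, ?_⟩
  rw [eval_eq_sum_range, Finset.mul_sum]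
  push_cast
  refine Finset.sum_congr rfl fun i hi => ?_
  have hi' : i ≤ d := by simp at hi; omega
  have hf : (i.factorial : ℝ) ≠ 0 := by positivity
  rw [← hz]
  have : (((d.factorial : ℤ) / (i.factorial : ℤ) : ℤ) : ℝ) = d.factorial / i.factorial := by
    rw [Int.cast_div (by exact_mod_cast Nat.factorial_dvd_factorial hi') (by exact_mod_cast hf)]
    simp
  rw [this, one_pow]
  field_simp

/-- The polynomial with divided-power coefficients `c`. -/
noncomputable def pc {δ : ℕ} (c : Fin δ → ℝ) : ℝ[X] :=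
  ∑ l : Fin δ, monomial l (c l / (l : ℕ).factorial)

lemma fac_coeff_pc {δ : ℕ} (c : Fin δ → ℝ) (l : ℕ) :
    (l.factorial : ℝ) * (pc c).coeff l = if h : l < δ then c ⟨l, h⟩ else 0 := by
  simp only [pc, finsetSum_coeff, coeff_monomial]
  split_ifs with h
  · rw [Finset.sum_eq_single ⟨l, h⟩]
    · have hf : (l.factorial : ℝ) ≠ 0 := by positivity
      simp only [if_true]; field_simp
    · intro b _ hb
      rw [if_neg]; intro e; exact hb (Fin.ext e)
    · simp only [Finset.mem_univ, not_true_eq_false, ↓ reduceIte, div_eq_zero_iff, Nat.cast_eq_zero, IsEmpty.forall_iff]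
  · rw [Finset.sum_eq_zero, mul_zero]
    intro b _
    rw [if_neg]; intro e; exact h (e ▸ b.2)

lemma natDegree_pc_le {δ : ℕ} (c : Fin δ → ℝ) : (pc c).natDegree ≤ δ := by
  rw [natDegree_le_iff_coeff_eq_zero]
  intro l hl
  have := fac_coeff_pc c l
  rw [dif_neg (by omega)] at this
  exact (mul_eq_zero.1 this).resolve_left (by positivity)

lemma Gb_pc {δ : ℕ} (c : Fin δ → ℝ) {H : ℝ} (hH : 0 ≤ H) (h : ∀ l, |c l| ≤ H) : Gb H (pc c) := by
  intro l
  rw [fac_coeff_pc]
  split_ifs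
  · exact h _
  · simpa only [abs_zero] using hH

lemma Gi_pc {δ : ℕ} (c : Fin δ → ℤ) : Gi (pc fun l => (c l : ℝ)) := by
  intro l
  rw [fac_coeff_pc]
  split_ifs
  · exact ⟨_, rfl⟩
  · exact ⟨0, by simp⟩

lemma pc_eq_sum {δ : ℕ} {α : Type} (s : Finset α) (x : α → ℝ) (c : α → Fin δ → ℝ) :
    pc (fun l => ∑ a ∈ s, x a * c a l) = ∑ a ∈ s, C (x a) * pc (c a) := by
  simp only [pc, Finset.mul_sum, C_mul_monomial, Finset.sum_div, map_sum]
  rw [Finset.sum_comm]
  refine Finset.sum_congr rfl fun a _ => Finset.sum_congr rfl fun l _ => ?_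
  rw [mul_div_assoc]

lemma siegel_real {α γ : Type} [Fintype α] [Fintype γ] (A : Matrix α γ ℤ) (D : ℝ) (hD : 1 ≤ D)
    (hA : ∀ i j, |(A i j : ℝ)| ≤ D) (e s : ℕ) (hs : 0 < s) (h1 : Fintype.card α = e * s)
    (h2 : Fintype.card γ = Fintype.card α + s) :
    ∃ t : γ → ℤ, t ≠ 0 ∧ A.mulVec t = 0 ∧ ∀ j, |(t j : ℝ)| ≤ (Fintype.card γ * D) ^ e := by
  classical
  have hlt : Fintype.card α < Fintype.card γ := by omega
  have hγ : (1 : ℝ) ≤ Fintype.card γ := by exact_mod_cast (Nat.zero_le _).trans_lt hlt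
  rcases Nat.eq_zero_or_pos (Fintype.card α) with h0 | h0
  · have : IsEmpty α := Fintype.card_eq_zero_iff.1 h0
    refine ⟨fun _ => 1, ?_, Subsingleton.elim _ _, fun j => ?_⟩
    · have : Nonempty γ := Fintype.card_pos_iff.1 ((Nat.zero_le _).trans_lt hlt)
      intro h
      simpa using congrFun h (Classical.arbitrary γ)
    · simpa only [Int.cast_one, abs_one] using one_le_pow₀ (one_le_mul_of_one_le_of_one_le hγ hD)
  let : SeminormedAddCommGroup (Matrix α γ ℤ) := Matrix.seminormedAddCommGroup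
  obtain ⟨t, ht1, ht2, ht3⟩ := Int.Matrix.exists_ne_zero_int_vec_norm_le A hlt h0
  refine ⟨t, ht1, ht2, fun j => ?_⟩
  have hn : ‖A‖ ≤ D := (Matrix.norm_le_iff (by linarith only [hD])).2 fun i j => by
    rw [Int.norm_eq_abs]; exact hA i j
  have he : ((Fintype.card α : ℝ) / (Fintype.card γ - Fintype.card α)) = (e : ℝ) := by
    have hs' : (s : ℝ) ≠ 0 := by positivity
    rw [h2, h1]; push_cast; field_simp; ring
  rw [he, Real.rpow_natCast] at ht3
  rw [← Int.norm_eq_abs]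
  calc ‖t j‖ ≤ ‖t‖ := norm_le_pi_norm t j
    _ ≤ _ := ht3
    _ ≤ _ := by
      gcongr
      exact max_le hD hn

lemma siegel_aux {ι κ : Type} [Fintype ι] [Fintype κ] (deg : ι → ℕ) (J : ℕ) (hJ : ∀ ν, deg ν ≤ J)
    (Φ : κ → ι → ℤ) (δ T e s : ℕ) (hs : 0 < s) (h1 : Fintype.card κ * T = e * s)
    (h2 : Fintype.card ι * δ = Fintype.card κ * T + s) (Z : ℝ) (hZ : 1 ≤ Z)
    (hΦ : ∀ μ ν, |(Φ μ ν : ℝ)| ≤ Z) (hT : (1 + J : ℝ) ^ T ≤ Z)
    (hδ : ((Fintype.card ι * δ : ℕ) : ℝ) ≤ Z) :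
    ∃ c : ι → Fin δ → ℤ, (∃ ν l, c ν l ≠ 0) ∧ (∀ ν l, |(c ν l : ℝ)| ≤ Z ^ (3 * e)) ∧
      ∀ μ, ∀ k < T, ∑ ν, (Φ μ ν : ℝ) *
        ((DD (deg ν) ^ k) (pc fun l => (c ν l : ℝ))).eval 0 = 0 := by
  classical
  have hE : ∀ (j k : ℕ) (l : Fin δ), ∃ z : ℤ,
      ((DD j ^ k) (pc fun l' => ((if l' = l then 1 else 0 : ℤ) : ℝ))).eval 0 = z ∧
        |(z : ℝ)| ≤ (1 + j) ^ k := by
    intro j k l
    obtain ⟨z, hz⟩ := (Gi_pc (fun l' => if l' = l then 1 else 0)).DD_pow j k 0
    have hb := (Gb_pc (fun l' => ((if l' = l then 1 else 0 : ℤ) : ℝ)) zero_le_one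
      (fun l' => by split_ifs <;> simp)).DD_pow (j := j) (by positivity) k 0
    rw [hz, mul_one] at hb
    refine ⟨z, ?_, hb⟩
    rw [← hz, ← coeff_zero_eq_eval_zero]; simp
  choose E hE1 hE2 using hE
  obtain ⟨t, ht1, ht2, ht3⟩ := siegel_real
    (Matrix.of fun (a : κ × Fin T) (b : ι × Fin δ) => Φ a.1 b.1 * E (deg b.1) a.2 b.2) (Z ^ 2)
    (one_le_pow₀ hZ) (fun a b => by
      simp only [Matrix.of_apply, Int.cast_mul, abs_mul, sq]
      refine mul_le_mul (hΦ _ _) ((hE2 _ _ _).trans (le_trans ?_ hT)) (abs_nonneg _) (by linarith only [hZ])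
      have h3 : (deg b.1 : ℝ) ≤ J := by exact_mod_cast hJ _
      calc (1 + deg b.1 : ℝ) ^ (a.2 : ℕ) ≤ (1 + J : ℝ) ^ (a.2 : ℕ) := by gcongr
        _ ≤ _ := pow_le_pow_right₀ (by linarith only []) a.2.2.le)
    e s hs (by simpa only [Fintype.card_prod, Fintype.card_fin] using h1) (by simpa only [Fintype.card_prod, Fintype.card_fin] using h2)
  refine ⟨fun ν l => t (ν, l), ?_, fun ν l => (ht3 _).trans ?_, fun μ k hk => ?_⟩
  · by_contra h
    push Not at h
    exact ht1 (funext fun b => h b.1 b.2)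
  · rw [pow_mul]
    simp only [Fintype.card_prod, Fintype.card_fin]
    gcongr
    calc ((Fintype.card ι * δ : ℕ) : ℝ) * Z ^ 2 ≤ Z * Z ^ 2 := by gcongr
      _ = Z ^ 3 := by ring
  · have h3 := congrFun ht2 (μ, ⟨k, hk⟩)
    simp only [Matrix.mulVec, dotProduct, Matrix.of_apply, Pi.zero_apply,
      Fintype.sum_prod_type] at h3
    have h4 := congrArg (fun z : ℤ => (z : ℝ)) h3
    push_cast at h4
    refine Eq.trans (Finset.sum_congr rfl fun ν _ => ?_) h4
    have h5 : (pc fun l => (t (ν, l) : ℝ)) = ∑ l, C (t (ν, l) : ℝ) *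
        pc fun l' => ((if l' = l then 1 else 0 : ℤ) : ℝ) := by
      rw [← pc_eq_sum]
      congr 1
      funext l'
      simp only [Int.cast_ite, Int.cast_one, Int.cast_zero, mul_ite, mul_one, mul_zero, Finset.sum_ite_eq, Finset.mem_univ, ↓ reduceIte]
    rw [h5, map_sum, eval_finsetSum, Finset.mul_sum]
    refine Finset.sum_congr rfl fun l _ => ?_
    rw [← smul_eq_C_mul, map_smul, eval_smul, hE1, smul_eq_mul]
    ring

lemma decomp {ι : Type} [Fintype ι] (deg : ι → ℕ) (J : ℕ) (hJ : ∀ ν, deg ν ≤ J) {δ : ℕ}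
    (c : ι → Fin δ → ℤ) (hc : ∃ ν l, c ν l ≠ 0) (H : ℝ) (hH : ∀ ν l, |(c ν l : ℝ)| ≤ H) :
    ∃ (N : ℕ) (j : Fin N → ℕ) (u : Fin N → ι → ℤ) (p : Fin N → ℝ[X]), 1 ≤ N ∧
      N ≤ Fintype.card ι ∧ (∀ r, j r ≤ J) ∧ (∀ r ν, deg ν ≠ j r → u r ν = 0) ∧
      (∀ r ν, |(u r ν : ℝ)| ≤ H) ∧ LinearIndependent ℝ (fun r ν => (u r ν : ℝ)) ∧
      HInd (fun r => (j r : ℝ)) p ∧ (∀ r, (p r).natDegree ≤ δ) ∧
      ∀ ν, (pc fun l => (c ν l : ℝ)) = ∑ r, C (u r ν : ℝ) * p r := by
  classical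
  let cp : ℕ × Fin δ → ι → ℝ := fun a ν => ((if deg ν = a.1 then c ν a.2 else 0 : ℤ) : ℝ)
  obtain ⟨f, hf1, hf2, hf3⟩ := Submodule.exists_fun_fin_finrank_span_eq ℝ (Set.range cp)
  choose a ha using hf1
  have hx : ∀ b, ∃ x : Fin _ → ℝ, ∑ r, x r • f r = cp b := fun b =>
    (Submodule.mem_span_range_iff_exists_fun ℝ).1
      (by rw [hf2]; exact Submodule.subset_span (Set.mem_range_self b))
  choose x hx using hx
  have hf0 : ∀ r ν, deg ν ≠ (a r).1 → f r ν = 0 := fun r ν h => by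
    rw [← ha r]; simp [cp, h]
  obtain ⟨ν0, l0, h0⟩ := hc
  have H0 : 0 ≤ H := (abs_nonneg _).trans (hH ν0 l0)
  refine ⟨_, fun r => (a r).1, fun r ν => if deg ν = (a r).1 then c ν (a r).2 else 0,
    fun r => pc fun l => x ((a r).1, l) r, ?_, ?_, fun r => ?_, fun r ν h => if_neg h,
    fun r ν => ?_, ?_, ?_, fun r => natDegree_pc_le _, fun ν => ?_⟩
  · by_contra h
    have hN : Module.finrank ℝ (Submodule.span ℝ (Set.range cp)) = 0 := by omega
    have : IsEmpty (Fin (Module.finrank ℝ (Submodule.span ℝ (Set.range cp)))) := by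
      rw [hN]; infer_instance
    have h1 := congrFun (hx (deg ν0, l0)) ν0
    simp [cp] at h1
    exact h0 (by exact_mod_cast h1.symm)
  · exact (Submodule.finrank_le _).trans (by simp only [Module.finrank_fintype_fun_eq_card, Std.le_refl])
  · by_contra h
    apply hf3.ne_zero r
    funext ν
    exact hf0 r ν (fun e => h (by beta_reduce; rw [← e]; exact hJ ν))
  · beta_reduce
    split_ifs
    · exact hH _ _
    · simpa only [Int.cast_zero, abs_zero] using H0
  · have : (fun r ν => ((if deg ν = (a r).1 then c ν (a r).2 else 0 : ℤ) : ℝ)) = f := by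
      funext r; rw [← ha r]
    rw [this]; exact hf3
  · intro c' j0 hc' hsum s
    by_cases hs : ((a s).1 : ℝ) = j0
    swap
    · exact hc' s hs
    rw [← pc_eq_sum] at hsum
    have h1 := fac_coeff_pc (fun l => ∑ r, c' r * x ((a r).1, l) r) (a s).2
    rw [hsum, dif_pos (a s).2.2] at h1
    have h2 : ∀ r, x (a s) r = if r = s then 1 else 0 := by
      have h3 : ∑ r, (x (a s) r - if r = s then 1 else 0) • f r = 0 := by
        simp only [sub_smul, Finset.sum_sub_distrib, hx, ha]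
        simp only [ite_smul, one_smul, zero_smul, Finset.sum_ite_eq', Finset.mem_univ, ↓ reduceIte, sub_self]
      intro r
      exact sub_eq_zero.1 (Fintype.linearIndependent_iff.1 hf3 _ h3 r)
    have h4 : ∑ r, c' r * x ((a r).1, (a s).2) r = ∑ r, c' r * if r = s then 1 else 0 := by
      refine Finset.sum_congr rfl fun r _ => ?_
      by_cases hr : ((a r).1 : ℝ) = j0
      · have : (a r).1 = (a s).1 := by exact_mod_cast hr.trans hs.symm
        rw [this, ← h2]
      · rw [hc' r hr, zero_mul, zero_mul]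
    simp only [coeff_zero, mul_zero, Fin.eta] at h1
    rw [h4] at h1
    simpa only [mul_ite, mul_one, mul_zero, Finset.sum_ite_eq', Finset.mem_univ, ↓ reduceIte] using h1.symm
  · rw [← pc_eq_sum]
    congr 1
    funext l
    have h1 := congrFun (hx (deg ν, l)) ν
    simp only [Finset.sum_apply, Pi.smul_apply, smul_eq_mul, cp, if_true] at h1
    rw [← h1]
    refine Finset.sum_congr rfl fun r _ => ?_
    by_cases hr : deg ν = (a r).1
    · rw [← ha r, hr]; simp only [cp]; rw [hr]; ring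
    · beta_reduce
      rw [hf0 r ν hr, if_neg hr]; simp

lemma chain_bound (F : ℕ → ℝ → ℝ) (T : ℕ) (M : ℝ)
    (hd : ∀ i x, HasDerivAt (F i) (F (i + 1) x) x) (h0 : ∀ i < T, F i 0 = 0)
    (hM : ∀ x ∈ Set.Icc (0 : ℝ) 1, |F T x| ≤ M) :
    ∀ s i, i + s = T → ∀ x ∈ Set.Icc (0 : ℝ) 1, |F i x| ≤ M * (x ^ s / s.factorial) := by
  intro s
  induction s with
  | zero => intro i hi x hx; simp at hi; subst hi; simpa only [pow_zero, Nat.factorial_zero, Nat.cast_one, ne_eq, one_ne_zero, not_false_eq_true, div_self, mul_one] using hM x hx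
  | succ s ih =>
    intro i hi x hx
    have := image_norm_le_of_norm_deriv_right_le_deriv_boundary (f := F i) (a := 0) (b := 1)
      (f' := F (i + 1)) (B := fun x => M * (x ^ (s + 1) / (s + 1).factorial))
      (B' := fun x => M * (x ^ s / s.factorial))
      (fun x _ => (hd i x).continuousAt.continuousWithinAt)
      (fun x _ => (hd i x).hasDerivWithinAt) (by simp [h0 i (by omega)])
      (fun x => by
        have h1 := ((hasDerivAt_pow (s + 1) x).div_const ((s + 1).factorial : ℝ)).const_mul M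
        have hf : (s.factorial : ℝ) ≠ 0 := by positivity
        have e : M * (((s + 1 : ℕ) : ℝ) * x ^ (s + 1 - 1) / (s + 1).factorial) =
            M * (x ^ s / s.factorial) := by
          rw [Nat.factorial_succ, Nat.add_sub_cancel]; push_cast; field_simp
        rwa [e] at h1)
      (fun x hx => ih (i + 1) (by omega) x (Set.Ico_subset_Icc_self hx)) hx
    simpa only [ge_iff_le, Real.norm_eq_abs] using this

lemma hasDerivAt_exp_eval (j : ℝ) (p : ℝ[X]) (x : ℝ) :
    HasDerivAt (fun x => Real.exp (j * x) * p.eval x) (Real.exp (j * x) * (DD j p).eval x) x := by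
  have h1 : HasDerivAt (fun x => Real.exp (j * x)) (Real.exp (j * x) * j) x := by
    simpa using ((hasDerivAt_id x).const_mul j).exp
  have h2 := h1.mul (p.hasDerivAt x)
  have e : Real.exp (j * x) * j * p.eval x + Real.exp (j * x) * (derivative p).eval x =
      Real.exp (j * x) * (DD j p).eval x := by
    rw [DD_apply]; simp; ring
  rwa [e] at h2

lemma analytic {ι κ : Type} [Fintype ι] [Fintype κ] (deg : ι → ℕ) (J : ℕ) (hJ : ∀ ν, deg ν ≤ J)
    (Φ : κ → ι → ℝ) (a : ι → ℝ[X]) (T k F : ℕ) (hF : F + k ≤ T) (Z H : ℝ) (hZ : 1 ≤ Z)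
    (hΦ : ∀ μ ν, |Φ μ ν| ≤ Z) (hT : (1 + J : ℝ) ^ T ≤ Z)
    (hc : 3 * Fintype.card ι * Real.exp J ≤ Z) (hy : (Fintype.card κ : ℝ) ≤ Z) (hH : 0 ≤ H)
    (ha : ∀ ν, Gb H (a ν))
    (h0 : ∀ μ, ∀ k < T, ∑ ν, Φ μ ν * ((DD (deg ν) ^ k) (a ν)).eval 0 = 0)
    (ρ ω : ι → ℝ) (g : κ → ℝ) (G ϖ : ℝ) (hG0 : 0 ≤ G) (hϖ0 : 0 ≤ ϖ)
    (hρ : ∀ ν, Real.exp (-(deg ν : ℝ)) * ρ ν = ∑ μ, Φ μ ν * g μ + ω ν)
    (hg : ∀ μ, |g μ| ≤ G) (hω : ∀ ν, |ω ν| ≤ ϖ) :
    |∑ ν, ((DD (deg ν) ^ k) (a ν)).eval 1 * ρ ν| ≤ H * Z ^ 4 * (G / F.factorial + ϖ) := by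
  have hb : ∀ i ≤ T, ∀ x ∈ Set.Icc (0 : ℝ) 1,
      ∑ ν, |Real.exp (deg ν * x) * ((DD (deg ν) ^ i) (a ν)).eval x| ≤ H * Z ^ 2 := by
    intro i hi x hx
    have hJ0 : (0 : ℝ) ≤ J := Nat.cast_nonneg J
    calc ∑ ν, |Real.exp (deg ν * x) * ((DD (deg ν) ^ i) (a ν)).eval x|
        ≤ ∑ _ν : ι, Real.exp J * (3 * (Z * H)) := by
          refine Finset.sum_le_sum fun ν _ => ?_
          have h3 : (deg ν : ℝ) ≤ J := by exact_mod_cast hJ _
          have h4 : (0 : ℝ) ≤ deg ν := Nat.cast_nonneg _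
          rw [abs_mul, abs_of_pos (Real.exp_pos _)]
          refine mul_le_mul (Real.exp_le_exp.2 ?_)
            ((((ha ν).DD_pow h4 i).eval_le hx).trans ?_) (abs_nonneg _) (Real.exp_pos _).le
          · nlinarith only [hx.2, h3]
          · gcongr
            calc (1 + deg ν : ℝ) ^ i ≤ (1 + J : ℝ) ^ i := by gcongr
              _ ≤ (1 + J : ℝ) ^ T := pow_le_pow_right₀ (by linarith only []) hi
              _ ≤ Z := hT
      _ = (3 * Fintype.card ι * Real.exp J) * (Z * H) := by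
          simp only [Finset.sum_const, Finset.card_univ, nsmul_eq_mul]; ring
      _ ≤ Z * (Z * H) := by gcongr
      _ = H * Z ^ 2 := by ring
  have hFμ : ∀ μ, |∑ ν, Φ μ ν * (Real.exp (deg ν * 1) * ((DD (deg ν) ^ k) (a ν)).eval 1)| ≤
      H * Z ^ 3 / F.factorial := by
    intro μ
    have := chain_bound
      (fun i x => ∑ ν, Φ μ ν * (Real.exp (deg ν * x) * ((DD (deg ν) ^ i) (a ν)).eval x)) T
      (H * Z ^ 3) (fun i x => by
        refine HasDerivAt.fun_sum fun ν _ => ?_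
        rw [DD_pow_succ]
        exact (hasDerivAt_exp_eval _ _ x).const_mul _)
      (fun i hi => by simpa only [mul_zero, Real.exp_zero, one_mul] using h0 μ i hi)
      (fun x hx => by
        refine (Finset.abs_sum_le_sum_abs _ _).trans ?_
        calc ∑ ν, |Φ μ ν * (Real.exp (deg ν * x) * ((DD (deg ν) ^ T) (a ν)).eval x)|
            ≤ ∑ ν, Z * |Real.exp (deg ν * x) * ((DD (deg ν) ^ T) (a ν)).eval x| :=
              Finset.sum_le_sum fun ν _ => by rw [abs_mul (Φ μ ν)]; gcongr; exact hΦ μ ν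
          _ ≤ Z * (H * Z ^ 2) := by
              rw [← Finset.mul_sum]; gcongr; exact hb T le_rfl x hx
          _ = H * Z ^ 3 := by ring)
      (T - k) k (by omega) 1 ⟨zero_le_one, le_rfl⟩
    refine this.trans ?_
    rw [one_pow, mul_one_div]
    gcongr
    omega
  have e : ∑ ν, ((DD (deg ν) ^ k) (a ν)).eval 1 * ρ ν =
      ∑ μ, (∑ ν, Φ μ ν * (Real.exp (deg ν * 1) * ((DD (deg ν) ^ k) (a ν)).eval 1)) * g μ +
      ∑ ν, (Real.exp (deg ν * 1) * ((DD (deg ν) ^ k) (a ν)).eval 1) * ω ν := by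
    simp only [Finset.sum_mul]
    rw [Finset.sum_comm, ← Finset.sum_add_distrib]
    refine Finset.sum_congr rfl fun ν _ => ?_
    have h1 : ρ ν = Real.exp (deg ν * 1) * (∑ μ, Φ μ ν * g μ + ω ν) := by
      rw [← hρ, ← mul_assoc, ← Real.exp_add]; simp
    rw [h1, mul_add, mul_add, Finset.mul_sum, Finset.mul_sum]
    congr 1
    · exact Finset.sum_congr rfl fun μ _ => by ring
    · ring
  rw [e]
  refine (abs_add_le _ _).trans ?_
  rw [mul_add]
  refine add_le_add ((Finset.abs_sum_le_sum_abs _ _).trans ?_)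
    ((Finset.abs_sum_le_sum_abs _ _).trans ?_)
  · calc _ ≤ ∑ _μ : κ, H * Z ^ 3 / F.factorial * G := Finset.sum_le_sum fun μ _ => by
          rw [abs_mul]
          exact mul_le_mul (hFμ μ) (hg μ) (abs_nonneg _) (by positivity)
      _ = Fintype.card κ * (H * Z ^ 3 / F.factorial * G) := by simp only [Finset.sum_const, Finset.card_univ, nsmul_eq_mul]
      _ ≤ Z * (H * Z ^ 3 / F.factorial * G) := by gcongr
      _ = _ := by ring
  · calc _ ≤ ∑ ν, |Real.exp (deg ν * 1) * ((DD (deg ν) ^ k) (a ν)).eval 1| * ϖ :=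
          Finset.sum_le_sum fun ν _ => by rw [abs_mul _ (ω ν)]; gcongr; exact hω ν
      _ ≤ H * Z ^ 2 * ϖ := by
          rw [← Finset.sum_mul]; gcongr; exact hb k (by omega) 1 ⟨zero_le_one, le_rfl⟩
      _ ≤ H * Z ^ 4 * ϖ := by gcongr; norm_num

/-- The output of the construction at one level. -/
def LevP {ι κ : Type} [Fintype ι] [Fintype κ] (deg : ι → ℕ) (Φ : κ → ι → ℤ) (n y t F : ℕ) (Z : ℝ)
    (N : ℕ) (j : Fin N → ℕ) (u : Fin N → ι → ℤ) : Prop :=
  (∀ r ν, deg ν ≠ j r → u r ν = 0) ∧ (∀ r ν, |(u r ν : ℝ)| ≤ Z ^ (36 * y)) ∧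
    LinearIndependent ℝ (fun r ν => (u r ν : ℝ)) ∧
    ∀ (m : ℕ) (B : Matrix (Fin m) κ ℝ) (B' : Matrix (Fin N) (Fin m) ℝ),
      B * (Matrix.of fun μ r => ∑ ν, (Φ μ ν : ℝ) * u r ν) * B' = 1 → y * N ≤ n * m → m ≤ n →
      ∀ (ρ ω : ι → ℝ) (g : κ → ℝ) (q G ϖ : ℝ) (r0 : Fin N), (∀ ν, ∃ z : ℤ, q * ρ ν = z) →
        q ≠ 0 → 0 ≤ G → 0 ≤ ϖ →
        (∀ ν, Real.exp (-(deg ν : ℝ)) * ρ ν = ∑ μ, (Φ μ ν : ℝ) * g μ + ω ν) →
        (∀ μ, |g μ| ≤ G) → (∀ ν, |ω ν| ≤ ϖ) → ∑ ν, (u r0 ν : ℝ) * ρ ν ≠ 0 →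
        1 ≤ (((12 * y + 1) * t).factorial : ℝ) * |q| *
          (Z ^ (36 * y + 4) * (G / F.factorial + ϖ))

theorem level {ι κ : Type} [Fintype ι] [Fintype κ] (deg : ι → ℕ) (J : ℕ) (hJ : ∀ ν, deg ν ≤ J)
    (Φ : κ → ι → ℤ) (n y t F : ℕ) (hn : Fintype.card ι = n) (hy : Fintype.card κ = y)
    (hn1 : 1 ≤ n) (ht : 1 ≤ t) (hF : F + (n * t + n * (n + 1) + 1) ≤ 12 * n * t)
    (Z : ℝ) (hZ : 1 ≤ Z) (hΦ : ∀ μ ν, |(Φ μ ν : ℝ)| ≤ Z) (hT : (1 + J : ℝ) ^ (12 * n * t) ≤ Z)
    (hδ : ((n * ((12 * y + 1) * t) : ℕ) : ℝ) ≤ Z) (hc : 3 * n * Real.exp J ≤ Z)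
    (hyZ : (y : ℝ) ≤ Z) :
    ∃ (N : ℕ) (j : Fin N → ℕ) (u : Fin N → ι → ℤ), 1 ≤ N ∧ N ≤ n ∧ (∀ r, j r ≤ J) ∧
      LevP deg Φ n y t F Z N j u := by
  obtain ⟨c, hc0, hc1, hc2⟩ := siegel_aux deg J hJ Φ ((12 * y + 1) * t) (12 * n * t) (12 * y)
    (n * t) (by positivity) (by rw [hy]; ring) (by rw [hn, hy]; ring) Z hZ hΦ hT (by rwa [hn])
  obtain ⟨N, j, u, p, hN1, hN2, hj, hu0, hu1, hu2, hp, hpd, hpa⟩ := decomp deg J hJ c hc0 _ hc1
  have e36 : 3 * (12 * y) = 36 * y := by ring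
  rw [e36] at hc1 hu1
  refine ⟨N, j, u, hN1, hn ▸ hN2, hj, hu0, hu1, hu2, ?_⟩
  intro m B B' hB hm1 hm2 ρ ω g q G ϖ r0 hq hq0 hG0 hϖ0 hρ hg hω hr0
  have key : ∀ (w : ι → ℝ) (k : ℕ) (x : ℝ),
      ∑ ν, w ν * ((DD (deg ν) ^ k) (pc fun l => (c ν l : ℝ))).eval x =
      ∑ r, (∑ ν, w ν * u r ν) * ((DD (j r) ^ k) (p r)).eval x := by
    intro w k x
    simp only [Finset.sum_mul]
    rw [Finset.sum_comm]
    refine Finset.sum_congr rfl fun ν _ => ?_
    rw [hpa, map_sum, eval_finsetSum, Finset.mul_sum]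
    refine Finset.sum_congr rfl fun r _ => ?_
    rw [← smul_eq_C_mul, map_smul, eval_smul, smul_eq_mul]
    by_cases h : deg ν = j r
    · rw [h]; ring
    · rw [hu0 r ν h]; simp
  have hex : ∃ k < n * t + n * (n + 1) + 1,
      ∑ ν, ρ ν * ((DD (deg ν) ^ k) (pc fun l => (c ν l : ℝ))).eval 1 ≠ 0 := by
    by_contra hcon
    push Not at hcon
    have hz := zero_est (T := 12 * n * t) (K := n * t + n * (n + 1) + 1) (fun r => (j r : ℝ)) p hp
      hpd (B * Matrix.of fun μ r => ∑ ν, (Φ μ ν : ℝ) * u r ν) B' hB (fun s k hk => by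
        simp only [Matrix.mul_apply, Matrix.of_apply, Finset.sum_mul]
        rw [Finset.sum_comm]
        refine Finset.sum_eq_zero fun μ _ => ?_
        have h1 := hc2 μ k hk
        rw [key] at h1
        refine Eq.trans ?_ ((congrArg (B s μ * ·) h1).trans (mul_zero _))
        rw [Finset.mul_sum]
        exact Finset.sum_congr rfl fun r _ => by ring)
      (fun r => ∑ ν, ρ ν * u r ν) r0
      (by simpa only [mul_comm (ρ _)] using hr0) (fun k hk => by rw [← key]; exact hcon k hk)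
    have hN2' : N ≤ n := hn ▸ hN2
    have h1 : N ≤ 12 * n * t := by nlinarith only [hn, hF, hN2]
    have h2 : N ≤ n * t + n * (n + 1) + 1 := by nlinarith only [hn, hN2]
    obtain ⟨a, ha⟩ := Nat.exists_eq_add_of_le h1
    obtain ⟨b, hb⟩ := Nat.exists_eq_add_of_le h2
    rw [ha, hb, Nat.add_sub_cancel_left, Nat.add_sub_cancel_left] at hz
    have h3 : m * (12 * n * t) = m * N + m * a := by rw [ha]; ring
    have h4 : y * N * (12 * t) ≤ n * m * (12 * t) := Nat.mul_le_mul_right _ hm1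
    have h5 : m * N ≤ n * n := Nat.mul_le_mul hm2 hN2'
    have h6 : N * t ≤ n * t := Nat.mul_le_mul_right _ hN2'
    linarith only [hn, hN2, hz, hb, h3, h4, h5, h6]
  obtain ⟨k, hk, hk0⟩ := hex
  have hH : 0 ≤ Z ^ (36 * y) := by positivity
  have hb := analytic deg J hJ (fun μ ν => (Φ μ ν : ℝ)) (fun ν => pc fun l => (c ν l : ℝ))
    (12 * n * t) k F (by omega) Z _ hZ hΦ hT (by rwa [hn]) (by rwa [hy]) hH
    (fun ν => Gb_pc _ hH (hc1 ν)) hc2 ρ ω g G ϖ hG0 hϖ0 hρ hg hω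
  have hi : ∀ ν, ∃ z : ℤ, (((12 * y + 1) * t).factorial : ℝ) *
      ((DD (deg ν) ^ k) (pc fun l => (c ν l : ℝ))).eval 1 = z := fun ν =>
    ((Gi_pc (c ν)).DD_pow (deg ν) k).eval_one
      ((natDegree_DD_pow_le _ _ _).trans (natDegree_pc_le _))
  choose z hz using hi
  choose z' hz' using hq
  have h7 : (((12 * y + 1) * t).factorial : ℝ) * q *
      ∑ ν, ((DD (deg ν) ^ k) (pc fun l => (c ν l : ℝ))).eval 1 * ρ ν = (∑ ν, z ν * z' ν : ℤ) := by
    rw [Finset.mul_sum]
    push_cast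
    refine Finset.sum_congr rfl fun ν _ => ?_
    rw [← hz, ← hz']; ring
  have hf : (0 : ℝ) < ((12 * y + 1) * t).factorial := by positivity
  have h8 : (∑ ν, z ν * z' ν : ℤ) ≠ 0 := by
    intro h
    rw [h, Int.cast_zero] at h7
    apply hk0
    simpa only [mul_comm (ρ _)] using (mul_eq_zero.1 h7).resolve_left (mul_ne_zero hf.ne' hq0)
  have h9 : (1 : ℝ) ≤ |((∑ ν, z ν * z' ν : ℤ) : ℝ)| := by
    exact_mod_cast Int.one_le_abs h8
  rw [← h7, abs_mul, abs_mul, abs_of_pos hf] at h9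
  refine h9.trans ?_
  rw [pow_add]
  gcongr

end H25E

end

section
/-! Germs along an ultrafilter, sizes and heights (helper25). -/

open Filter

namespace H25E

/-- A scale: an ultrafilter on `ℕ` and a sequence tending to infinity along it. -/
structure Sc where
  U : Ultrafilter ℕ
  h : ℕ → ℝ
  hh : Tendsto h U atTop

namespace Sc

variable (S : Sc)

/-- The field of germs. -/
abbrev L := Germ (S.U : Filter ℕ) ℝ

/-- The germ of a sequence. -/
noncomputable def gm : (ℕ → ℝ) →+* S.L := Germ.coeRingHom _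

/-- The germ of a constant. -/
noncomputable def cst : ℝ →+* S.L := S.gm.comp (Pi.constRingHom ℕ ℝ)

/-- The germ of `exp (c h)`. -/
noncomputable def Xp (c : ℝ) : S.L := S.gm fun N => Real.exp (c * S.h N)

/-- Size at most `exp ((c + o(1)) h)`. -/
def Bd (c : ℝ) (x : S.L) : Prop := ∀ ε : ℝ, 0 < ε → |x| ≤ S.Xp (c + ε)

variable {S}

lemma gm_surj (x : S.L) : ∃ f, S.gm f = x := Germ.inductionOn x fun f => ⟨f, rfl⟩

lemma gm_eq {f g : ℕ → ℝ} : S.gm f = S.gm g ↔ ∀ᶠ N in S.U, f N = g N := Germ.coe_eq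

lemma gm_le {f g : ℕ → ℝ} : S.gm f ≤ S.gm g ↔ ∀ᶠ N in S.U, f N ≤ g N := Germ.coe_le

lemma gm_lt {f g : ℕ → ℝ} : S.gm f < S.gm g ↔ ∀ᶠ N in S.U, f N < g N := Germ.coe_lt

lemma gm_abs (f : ℕ → ℝ) : |S.gm f| = S.gm fun N => |f N| := rfl

lemma gm_eq_zero {f : ℕ → ℝ} : S.gm f = 0 ↔ ∀ᶠ N in S.U, f N = 0 := by
  rw [← map_zero S.gm, gm_eq]; rfl

lemma gm_ne_zero {f : ℕ → ℝ} : S.gm f ≠ 0 ↔ ∀ᶠ N in S.U, f N ≠ 0 := by
  rw [Ne, gm_eq_zero, Ultrafilter.eventually_not]

lemma gm_sum {α : Type} (s : Finset α) (f : α → ℕ → ℝ) :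
    ∑ a ∈ s, S.gm (f a) = S.gm fun N => ∑ a ∈ s, f a N := by
  rw [← map_sum]; congr 1; funext N; simp

lemma gm_mul (f g : ℕ → ℝ) : S.gm f * S.gm g = S.gm fun N => f N * g N := (map_mul _ _ _).symm

lemma gm_add (f g : ℕ → ℝ) : S.gm f + S.gm g = S.gm fun N => f N + g N := (map_add _ _ _).symm

lemma gm_sub (f g : ℕ → ℝ) : S.gm f - S.gm g = S.gm fun N => f N - g N := (map_sub _ _ _).symm

lemma gm_pow (f : ℕ → ℝ) (k : ℕ) : S.gm f ^ k = S.gm fun N => f N ^ k := (map_pow _ _ _).symm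

lemma gm_one : (1 : S.L) = S.gm fun _ => 1 := (map_one S.gm).symm

lemma cst_def (r : ℝ) : S.cst r = S.gm fun _ => r := rfl

lemma Xp_add (a b : ℝ) : S.Xp (a + b) = S.Xp a * S.Xp b := by
  simp only [Xp, gm_mul, add_mul, Real.exp_add]

lemma Xp_zero : S.Xp 0 = 1 := by simp only [Xp, zero_mul, Real.exp_zero, gm_one]

lemma Xp_pos (a : ℝ) : 0 < S.Xp a := by
  rw [← map_zero S.gm, Xp, gm_lt]
  exact Eventually.of_forall fun N => Real.exp_pos _

lemma Xp_mono {a b : ℝ} (hab : a ≤ b) : S.Xp a ≤ S.Xp b := by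
  rw [Xp, Xp, gm_le]
  filter_upwards [S.hh.eventually_ge_atTop 0] with N hN
  exact Real.exp_le_exp.2 (mul_le_mul_of_nonneg_right hab hN)

lemma cst_le_Xp (r : ℝ) {c : ℝ} (hc : 0 < c) : S.cst r ≤ S.Xp c := by
  rw [cst_def, Xp, gm_le]
  filter_upwards [S.hh.eventually_ge_atTop (r / c)] with N hN
  rw [div_le_iff₀ hc] at hN
  linarith [Real.add_one_le_exp (c * S.h N)]

lemma Xp_pow (a : ℝ) (k : ℕ) : S.Xp a ^ k = S.Xp (k * a) := by
  induction k with
  | zero => simp [Xp_zero]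
  | succ k ih => rw [pow_succ, ih, ← Xp_add]; congr 1; push_cast; ring

lemma Bd.mono {a b : ℝ} {x : S.L} (h : S.Bd a x) (hab : a ≤ b) : S.Bd b x :=
  fun ε hε => (h ε hε).trans (Xp_mono (by linarith))

lemma Bd.of_le {a : ℝ} {x y : S.L} (h : S.Bd a y) (hxy : |x| ≤ |y|) : S.Bd a x :=
  fun ε hε => hxy.trans (h ε hε)

lemma Bd.mul {a b : ℝ} {x y : S.L} (hx : S.Bd a x) (hy : S.Bd b y) : S.Bd (a + b) (x * y) := by
  intro ε hε
  rw [abs_mul, show a + b + ε = (a + ε / 2) + (b + ε / 2) by ring, Xp_add]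
  exact mul_le_mul (hx _ (by linarith)) (hy _ (by linarith only [hε])) (abs_nonneg _) (Xp_pos _).le

lemma Bd.mul0 {a : ℝ} {x y : S.L} (hx : S.Bd 0 x) (hy : S.Bd a y) : S.Bd a (x * y) := by
  simpa using hx.mul hy

lemma Bd.add {a : ℝ} {x y : S.L} (hx : S.Bd a x) (hy : S.Bd a y) : S.Bd a (x + y) := by
  intro ε hε
  have h1 := hx (ε / 2) (by linarith)
  have h2 := hy (ε / 2) (by linarith only [hε])
  have h3 := cst_le_Xp (S := S) 2 (c := ε / 2) (by linarith only [hε])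
  rw [map_ofNat] at h3
  rw [show a + ε = ε / 2 + (a + ε / 2) by ring, Xp_add]
  calc |x + y| ≤ |x| + |y| := abs_add_le _ _
    _ ≤ 2 * S.Xp (a + ε / 2) := by linarith only [h1, h2]
    _ ≤ _ := mul_le_mul_of_nonneg_right h3 (Xp_pos _).le

lemma Bd.neg {a : ℝ} {x : S.L} (hx : S.Bd a x) : S.Bd a (-x) := hx.of_le (by simp)

lemma Bd.abs {a : ℝ} {x : S.L} (hx : S.Bd a x) : S.Bd a |x| := hx.of_le (by simp)

lemma Bd.sub {a : ℝ} {x y : S.L} (hx : S.Bd a x) (hy : S.Bd a y) : S.Bd a (x - y) := by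
  rw [sub_eq_add_neg]; exact hx.add hy.neg

lemma Bd_zero (a : ℝ) : S.Bd a 0 := fun _ _ => by simpa only [abs_zero] using (Xp_pos _).le

lemma Bd_sum {a : ℝ} {α : Type} (s : Finset α) (f : α → S.L) (h : ∀ i ∈ s, S.Bd a (f i)) :
    S.Bd a (∑ i ∈ s, f i) :=
  Finset.sum_induction f (S.Bd a) (fun _ _ => Bd.add) (Bd_zero a) h

lemma Bd_cst (r : ℝ) : S.Bd 0 (S.cst r) := fun ε hε => by
  rw [cst_def, gm_abs, ← cst_def, zero_add]; exact cst_le_Xp _ hε

lemma Bd_one : S.Bd 0 1 := by simpa using Bd_cst (S := S) 1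

lemma Bd_nat (n : ℕ) : S.Bd 0 n := by simpa using Bd_cst (S := S) n

lemma Bd_Xp (a : ℝ) : S.Bd a (S.Xp a) := fun ε hε => by
  rw [abs_of_pos (Xp_pos _)]; exact Xp_mono (by linarith)

lemma Bd.pow {a : ℝ} {x : S.L} (hx : S.Bd a x) (k : ℕ) : S.Bd (k * a) (x ^ k) := by
  induction k with
  | zero => simpa using Bd_one
  | succ k ih => rw [pow_succ]; push_cast; rw [add_mul, one_mul]; exact ih.mul hx

lemma Bd.pow0 {x : S.L} (hx : S.Bd 0 x) (k : ℕ) : S.Bd 0 (x ^ k) := by simpa using hx.pow k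

lemma not_Bd {a : ℝ} {x : S.L} (ha : a < 0) (hx : S.Bd a x) (h1 : 1 ≤ x) : False := by
  have h2 := hx (-a / 2) (by linarith)
  have h3 := cst_le_Xp (S := S) 2 (c := -a / 2) (by linarith only [ha])
  rw [map_ofNat] at h3
  have h4 : S.Xp (a + -a / 2) * S.Xp (-a / 2) = 1 := by
    rw [← Xp_add, ← Xp_zero]; congr 1; ring
  have h5 := le_abs_self x
  nlinarith only [h1, h2, h3, h4, h5]

lemma Bd_gm {a : ℝ} {f : ℕ → ℝ} :
    S.Bd a (S.gm f) ↔ ∀ ε : ℝ, 0 < ε → ∀ᶠ N in S.U, |f N| ≤ Real.exp ((a + ε) * S.h N) := by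
  simp only [Bd, gm_abs, Xp, gm_le]

lemma Bd_pow_of_fac {t : ℕ → ℕ} {c : ℝ} (hc : 0 < c)
    (ht : ∀ᶠ N in S.U, ((t N).factorial : ℝ) ≤ Real.exp (c * S.h N)) {C : ℝ} (hC : 0 ≤ C) :
    S.Bd 0 (S.gm fun N => C ^ t N) := by
  rw [Bd_gm]
  intro ε hε
  obtain ⟨k, hk⟩ := exists_nat_ge (2 * c / ε)
  rw [div_le_iff₀ hε] at hk
  have hk0 : k ≠ 0 := by rintro rfl; simp at hk; linarith
  filter_upwards [ht, S.hh.eventually_ge_atTop (C ^ k / c), S.hh.eventually_ge_atTop 0]
    with N h1 h2 h0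
  rw [div_le_iff₀ hc] at h2
  have h3 := Real.pow_div_factorial_le_exp (C ^ k) (by positivity) (t N)
  rw [div_le_iff₀ (by positivity)] at h3
  rw [abs_of_nonneg (by positivity), zero_add]
  refine le_of_pow_le_pow_left₀ hk0 (Real.exp_pos _).le ?_
  rw [← pow_mul, mul_comm, pow_mul, ← Real.exp_nat_mul]
  calc (C ^ k) ^ t N ≤ Real.exp (C ^ k) * Real.exp (c * S.h N) := h3.trans (by gcongr)
    _ = Real.exp (C ^ k + c * S.h N) := (Real.exp_add _ _).symm
    _ ≤ _ := Real.exp_le_exp.2 (by nlinarith only [hk, h2, h0])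

variable (S)

/-- Germs of integer sequences. -/
noncomputable def Zh : Subring S.L :=
  (S.gm.comp (RingHom.compLeft (Int.castRingHom ℝ) ℕ)).range

/-- Germs of subexponential size. -/
def O : Subring S.L where
  carrier := {x | S.Bd 0 x}
  mul_mem' := Bd.mul0
  one_mem' := Bd_one
  add_mem' := Bd.add
  zero_mem' := Bd_zero 0
  neg_mem' := Bd.neg

/-- Small integer germs. -/
noncomputable def Lam : Subring S.L := S.Zh ⊓ S.O

/-- The field of germs of small height. -/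
noncomputable def K : Subfield S.L := Subfield.closure S.Lam

variable {S}

lemma mem_Zh {x : S.L} : x ∈ S.Zh ↔ ∃ a : ℕ → ℤ, S.gm (fun N => (a N : ℝ)) = x := Iff.rfl

lemma mem_Lam {x : S.L} : x ∈ S.Lam ↔ x ∈ S.Zh ∧ S.Bd 0 x := Iff.rfl

lemma one_le_abs {x : S.L} (hx : x ∈ S.Zh) (h0 : x ≠ 0) : 1 ≤ |x| := by
  obtain ⟨a, rfl⟩ := mem_Zh.1 hx
  rw [gm_abs, gm_one, gm_le]
  filter_upwards [gm_ne_zero.1 h0] with N hN
  exact_mod_cast Int.one_le_abs (by exact_mod_cast hN)

lemma Lam_le_K {x : S.L} (hx : x ∈ S.Lam) : x ∈ S.K := Subfield.subset_closure hx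

lemma K_den (x : S.K) : ∃ b ∈ S.Lam, b ≠ 0 ∧ b * x ∈ S.Lam := by
  obtain ⟨a, ha, b, hb, e⟩ := Subfield.mem_closure_iff.1 x.2
  rw [Subring.closure_eq] at ha hb
  by_cases h : b = 0
  · exact ⟨1, one_mem _, one_ne_zero, by rw [← e, h]; simp⟩
  · exact ⟨b, hb, h, by rw [← e, mul_div_cancel₀ _ h]; exact ha⟩

lemma Bd.of_mul {a : ℝ} {b x : S.L} (hb : b ∈ S.Zh) (h0 : b ≠ 0) (h : S.Bd a (b * x)) :
    S.Bd a x := h.of_le (by
  rw [abs_mul]; exact le_mul_of_one_le_left (abs_nonneg _) (one_le_abs hb h0))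

lemma Bd_K (x : S.K) : S.Bd 0 x := by
  obtain ⟨b, hb, h0, h⟩ := K_den x
  exact Bd.of_mul hb.1 h0 h.2

lemma Bd.smul {a : ℝ} {x : S.L} (h : S.Bd a x) (k : S.K) : S.Bd a (k • x) := (Bd_K k).mul0 h

lemma common_den {α : Type} [Fintype α] (R : Subring S.L) (hR : S.Lam ≤ R) (x : α → S.L)
    (h : ∀ i, ∃ b ∈ S.Lam, b ≠ 0 ∧ b * x i ∈ R) : ∃ b ∈ S.Lam, b ≠ 0 ∧ ∀ i, b * x i ∈ R := by
  classical
  choose b hb h0 h1 using h
  refine ⟨∏ i, b i, prod_mem fun i _ => hb i, Finset.prod_ne_zero_iff.2 fun i _ => h0 i,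
    fun i => ?_⟩
  rw [← Finset.prod_erase_mul _ _ (Finset.mem_univ i), mul_assoc]
  exact mul_mem (hR (prod_mem fun i _ => hb i)) (h1 i)

variable (S)

/-- Germs of size `exp ((c + o(1)) h)` as a `K`-space. -/
def TT (c : ℝ) : Submodule S.K S.L where
  carrier := {x | S.Bd c x}
  add_mem' := Bd.add
  zero_mem' := Bd_zero c
  smul_mem' := fun k _ h => h.smul k

/-- Small germs with denominator `q` up to small factors. -/
def MM (q : S.L) : Submodule S.K S.L where
  carrier := {x | S.Bd 0 x ∧ ∃ b ∈ S.Lam, b ≠ 0 ∧ b * (q * x) ∈ S.Zh}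
  add_mem' := by
    rintro x y ⟨hx, a, ha, ha0, ha1⟩ ⟨hy, b, hb, hb0, hb1⟩
    refine ⟨hx.add hy, a * b, mul_mem ha hb, mul_ne_zero ha0 hb0, ?_⟩
    rw [show a * b * (q * (x + y)) = b * (a * (q * x)) + a * (b * (q * y)) by ring]
    exact add_mem (mul_mem hb.1 ha1) (mul_mem ha.1 hb1)
  zero_mem' := ⟨Bd_zero 0, 1, one_mem _, one_ne_zero, by simp⟩
  smul_mem' := by
    rintro k x ⟨hx, a, ha, ha0, ha1⟩
    obtain ⟨b, hb, hb0, hb1⟩ := K_den k
    refine ⟨hx.smul k, a * b, mul_mem ha hb, mul_ne_zero ha0 hb0, ?_⟩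
    rw [show a * b * (q * (k • x)) = (b * k) * (a * (q * x)) by
      rw [Subfield.smul_def, smul_eq_mul]; ring]
    exact mul_mem hb1.1 ha1

end Sc

lemma rank_fact {F κ α : Type} [Field F] [Fintype κ] [Fintype α] (A : Matrix κ α F) :
    ∃ (m : ℕ) (A1 : Matrix κ (Fin m) F) (A2 : Matrix (Fin m) α F) (B : Matrix (Fin m) κ F)
      (B' : Matrix α (Fin m) F), m ≤ Fintype.card κ ∧ A = A1 * A2 ∧ B * A * B' = 1 := by
  classical
  let f := Matrix.toLin' A
  let b := Module.finBasis F (LinearMap.range f)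
  let inc := (LinearMap.range f).subtype ∘ₗ b.equivFun.symm.toLinearMap
  let pr := b.equivFun.toLinearMap ∘ₗ f.rangeRestrict
  have h1 : inc ∘ₗ pr = f := by
    refine LinearMap.ext fun v => ?_
    simp [inc, pr, -Module.Basis.equivFun_symm_apply, -Module.Basis.equivFun_apply]
  obtain ⟨l, hl⟩ := inc.exists_leftInverse_of_injective (by
    simp only [inc, LinearMap.ker_comp, Submodule.ker_subtype, Submodule.comap_bot, LinearEquiv.ker])
  obtain ⟨r, hr⟩ := pr.exists_rightInverse_of_surjective (by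
    simp [pr, LinearMap.range_comp])
  have hA : A = LinearMap.toMatrix' inc * LinearMap.toMatrix' pr := by
    rw [← LinearMap.toMatrix'_comp, h1]; simp [f]
  refine ⟨_, LinearMap.toMatrix' inc, LinearMap.toMatrix' pr, LinearMap.toMatrix' l,
    LinearMap.toMatrix' r, (Submodule.finrank_le _).trans (by simp only [Module.finrank_fintype_fun_eq_card, Std.le_refl]), hA, ?_⟩
  rw [hA, ← Matrix.mul_assoc, ← LinearMap.toMatrix'_comp, hl, Matrix.mul_assoc,
    ← LinearMap.toMatrix'_comp, hr]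
  simp

lemma exists_t (S : Sc) (d : ℕ) (hd : 1 ≤ d) {c : ℝ} (hc : 0 < c) : ∃ t : ℕ → ℕ,
    (∀ᶠ N in S.U, ((d * t N).factorial : ℝ) ≤ Real.exp (c * S.h N) ∧
      Real.exp (c * S.h N) ≤ ((d * (t N + 1)).factorial : ℝ)) ∧
    ∀ t0, ∀ᶠ N in S.U, t0 ≤ t N := by
  classical
  have hex : ∀ N, ∃ s : ℕ, Real.exp (c * S.h N) < ((d * (s + 1)).factorial : ℝ) := by
    intro N
    obtain ⟨s, hs⟩ := exists_nat_gt (Real.exp (c * S.h N))
    refine ⟨s, hs.trans_le ?_⟩
    exact_mod_cast le_trans (by nlinarith only [hd]) (Nat.self_le_factorial _)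
  refine ⟨fun N => Nat.find (hex N), ?_, fun t0 => ?_⟩
  · filter_upwards [S.hh.eventually_ge_atTop 0] with N hN
    refine ⟨?_, (Nat.find_spec (hex N)).le⟩
    rcases Nat.eq_zero_or_pos (Nat.find (hex N)) with h | h
    · rw [h]; simpa only [mul_zero, Nat.factorial_zero, Nat.cast_one, Real.one_le_exp_iff] using mul_nonneg hc.le hN
    · have := Nat.find_min (hex N) (m := Nat.find (hex N) - 1) (by omega)
      rw [Nat.sub_add_cancel h] at this
      exact not_lt.1 this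
  · filter_upwards [Sc.gm_le.1 (Sc.cst_le_Xp (S := S) ((d * t0).factorial : ℝ) hc)] with N hN
    by_contra hlt
    have h1 := Nat.find_spec (hex N)
    have h2 : (d * (Nat.find (hex N) + 1)).factorial ≤ (d * t0).factorial :=
      Nat.factorial_le (Nat.mul_le_mul_left _ (by omega))
    have h3 : ((d * (Nat.find (hex N) + 1)).factorial : ℝ) ≤ (d * t0).factorial := by
      exact_mod_cast h2
    exact absurd (h1.trans_le (h3.trans hN)) (lt_irrefl _)

lemma fac_four (m : ℕ) : m.factorial ^ 4 ≤ (4 * m).factorial := by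
  have h := fun a b : ℕ => Nat.le_of_dvd (Nat.factorial_pos _)
    (Nat.factorial_mul_factorial_dvd_factorial_add a b)
  have h1 := h m m
  have h2 := h (m + m) (m + m)
  rw [show 4 * m = m + m + (m + m) by ring]
  calc m.factorial ^ 4 = (m.factorial * m.factorial) * (m.factorial * m.factorial) := by ring
    _ ≤ _ := (Nat.mul_le_mul h1 h1).trans h2

end H25E

end

section
/-! The core inequality for powers of `e` (helper25). -/

open Filter

namespace H25E

open Sc

theorem core (S : Sc) {c : ℝ} (hc : 0 < c) {q : S.L} (hq0 : q ≠ 0) (hqc : S.Bd c q) :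
    ∀ (s : ℕ) (ι κ : Type) [Fintype ι] [Fintype κ], Fintype.card ι + Fintype.card κ = s →
    1 ≤ Fintype.card ι → ∀ (deg : ι → ℕ) (ρ : ι → S.L) (φ : κ → ι → S.K) (g : κ → S.L),
    (∀ ν, ρ ν ∈ S.MM q) →
    (∀ (x : ι → S.K) (j : ℕ), (∀ ν, deg ν ≠ j → x ν = 0) → ∑ ν, x ν • ρ ν = 0 → ∀ ν, x ν = 0) →
    (∀ μ, S.Bd 0 (g μ)) →
    (∀ ν, S.Bd (-(2 * c)) (S.cst (Real.exp (-(deg ν : ℝ))) * ρ ν - ∑ μ, φ μ ν • g μ)) →
    Fintype.card ι < 8 * Fintype.card κ := by
  intro s
  induction s using Nat.strong_induction_on with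
  | _ s ih =>
  intro ι κ _ _ hs hn1 deg ρ φ0 g0 hρ hind hg0 hω0
  classical
  by_contra hcon
  obtain ⟨n, hn⟩ : ∃ n, Fintype.card ι = n := ⟨_, rfl⟩
  obtain ⟨y, hy⟩ : ∃ y, Fintype.card κ = y := ⟨_, rfl⟩
  rw [hn, hy] at hcon hs
  rw [hn] at hn1
  have h8 : 8 * y ≤ n := not_lt.1 hcon
  obtain ⟨J, hJ⟩ : ∃ J, ∀ ν, deg ν ≤ J :=
    ⟨Finset.univ.sup deg, fun ν => Finset.le_sup (Finset.mem_univ ν)⟩
  obtain ⟨φ, g, hφ, hg, hω⟩ : ∃ (φ : κ → ι → S.K) (g : κ → S.L),
      (∀ a : κ × ι, (φ a.1 a.2 : S.L) ∈ S.Lam) ∧ (∀ μ, S.Bd 0 (g μ)) ∧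
      ∀ ν, S.Bd (-(2 * c)) (S.cst (Real.exp (-(deg ν : ℝ))) * ρ ν - ∑ μ, φ μ ν • g μ) := by
    obtain ⟨l1, hl1, hl10, hl11⟩ := common_den S.Lam le_rfl
      (fun a : κ × ι => (φ0 a.1 a.2 : S.L)) (fun a => K_den _)
    refine ⟨fun μ ν => ⟨l1, Lam_le_K hl1⟩ * φ0 μ ν, fun μ => g0 μ / l1, hl11, fun μ => ?_,
      fun ν => ?_⟩
    · refine Bd.of_mul hl1.1 hl10 ?_
      rw [mul_div_cancel₀ _ hl10]; exact hg0 μ
    · have e : ∀ μ, ((⟨l1, Lam_le_K hl1⟩ : S.K) * φ0 μ ν) • (g0 μ / l1) = φ0 μ ν • g0 μ := by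
        intro μ
        simp only [Subfield.smul_def, smul_eq_mul, Subfield.coe_mul]
        field_simp
      simp only [e]
      exact hω0 ν
  clear hω0 hg0 φ0 g0
  obtain ⟨l2, hl2, hl20, hl21⟩ := common_den S.Zh inf_le_left (fun ν => q * ρ ν)
    (fun ν => (hρ ν).2)
  choose Φ hΦ using fun a : κ × ι => mem_Zh.1 (hφ a).1
  choose zρ hzρ using fun ν => mem_Zh.1 (hl21 ν)
  choose ρs hρs using fun ν => gm_surj (ρ ν)
  choose gs hgs using fun μ => gm_surj (g μ)
  obtain ⟨qs, hqs⟩ := gm_surj (l2 * q)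
  let ωs : ι → ℕ → ℝ := fun ν N =>
    Real.exp (-(deg ν : ℝ)) * ρs ν N - ∑ μ, (Φ (μ, ν) N : ℝ) * gs μ N
  have hωs : ∀ ν, S.Bd (-(2 * c)) (S.gm (ωs ν)) := by
    intro ν
    have e : S.gm (ωs ν) = S.cst (Real.exp (-(deg ν : ℝ))) * ρ ν - ∑ μ, φ μ ν • g μ := by
      simp only [Subfield.smul_def, smul_eq_mul, ← hΦ (_, ν), ← hgs, ← hρs, cst_def, gm_mul,
        gm_sum, gm_sub, ωs]
    rw [e]; exact hω ν
  obtain ⟨t, ht1, ht2⟩ := exists_t S (12 * y + 1) (by omega) (c := c / 2) (by linarith only [hc])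
  let Z : ℕ → ℝ := fun N => 1 + ∑ a, |(Φ a N : ℝ)| + ((1 + J : ℝ) ^ (12 * n)) ^ t N +
    (n * (12 * y + 1) : ℝ) * 2 ^ t N + 3 * n * Real.exp J + y
  have hfac : ∀ᶠ N in S.U, ((t N).factorial : ℝ) ≤ Real.exp (c / 2 * S.h N) := by
    filter_upwards [ht1] with N hN
    refine le_trans ?_ hN.1
    exact_mod_cast Nat.factorial_le (Nat.le_mul_of_pos_left _ (by omega))
  have hZ : S.Bd 0 (S.gm Z) := by
    have e : S.gm Z = 1 + ∑ a : κ × ι, |(φ a.1 a.2 : S.L)| +
        S.gm (fun N => ((1 + J : ℝ) ^ (12 * n)) ^ t N) +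
        S.cst (n * (12 * y + 1)) * S.gm (fun N => 2 ^ t N) + S.cst (3 * n * Real.exp J) +
        S.cst y := by
      simp only [← hΦ, gm_abs, gm_one, cst_def, gm_mul, gm_sum, gm_add, Z]
    rw [e]
    refine ((((Bd_one.add (Bd_sum _ _ fun a _ => (hφ a).2.abs)).add ?_).add
      ((Bd_cst _).mul0 ?_)).add (Bd_cst _)).add (Bd_cst _)
    · exact Bd_pow_of_fac (by linarith only [hc]) hfac (by positivity)
    · exact Bd_pow_of_fac (by linarith only [hc]) hfac (by positivity)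
  have hlev : ∀ᶠ N in S.U, ∃ N' : Fin (n + 1), ∃ j : Fin N' → Fin (J + 1),
      ∃ u : Fin N' → ι → ℤ, 1 ≤ (N' : ℕ) ∧ LevP deg (fun μ ν => Φ (μ, ν) N) n y (t N)
        (4 * ((12 * y + 1) * (t N + 1))) (Z N) N' (fun r => j r) u := by
    filter_upwards [ht2 (n + 12)] with N hN
    have p1 : 0 ≤ ∑ a, |(Φ a N : ℝ)| := by positivity
    have p2 : 0 ≤ ((1 + J : ℝ) ^ (12 * n)) ^ t N := by positivity
    have p3 : 0 ≤ (n * (12 * y + 1) : ℝ) * 2 ^ t N := by positivity
    have p4 : 0 ≤ 3 * n * Real.exp J := by positivity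
    have p5 : (0 : ℝ) ≤ y := by positivity
    obtain ⟨N', j, u, h1, h2, h3, h4⟩ := level deg J hJ (fun μ ν => Φ (μ, ν) N) n y (t N)
      (4 * ((12 * y + 1) * (t N + 1))) hn hy hn1 (by omega) (by
        have e1 : 4 * ((12 * y + 1) * (t N + 1)) ≤ 10 * n * (t N + 1) := by
          rw [← mul_assoc]; exact Nat.mul_le_mul_right _ (by omega)
        have e2 : n * (n + 12) ≤ n * t N := Nat.mul_le_mul_left _ hN
        linarith only [hn1, e1, e2]) (Z N) (by simp only [Z]; linarith only [p1, p2, p3, p4]) (fun μ ν => by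
        have := Finset.single_le_sum (f := fun a => |(Φ a N : ℝ)|) (fun a _ => abs_nonneg _)
          (Finset.mem_univ (μ, ν))
        simp only [Z]; linarith only [p2, p3, p4, this]) (by rw [pow_mul]; simp only [Z]; linarith only [p1, p3, p4]) (by
        have e1 : (t N : ℝ) ≤ 2 ^ t N := by exact_mod_cast Nat.lt_two_pow_self.le
        have e2 : ((n * ((12 * y + 1) * t N) : ℕ) : ℝ) ≤ (n * (12 * y + 1) : ℝ) * 2 ^ t N := by
          push_cast; rw [← mul_assoc]; gcongr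
        simp only [Z]; linarith only [p1, p2, p4, e2]) (by simp only [Z]; linarith only [p1, p2, p3]) (by simp only [Z]; linarith only [p1, p2, p3, p4])
    exact ⟨⟨N', by omega⟩, fun r => ⟨j r, Nat.lt_succ_of_le (h3 r)⟩, u, h1, h4⟩
  obtain ⟨N', hlev⟩ := Ultrafilter.eventually_exists_iff.1 hlev
  obtain ⟨j, hlev⟩ := Ultrafilter.eventually_exists_iff.1 hlev
  obtain ⟨u, hlev⟩ := hlev.choice
  have hN1 : 1 ≤ (N' : ℕ) := hlev.exists.choose_spec.1
  have hu : ∀ r ν, S.gm (fun N => (u N r ν : ℝ)) ∈ S.Lam := by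
    intro r ν
    refine ⟨mem_Zh.2 ⟨_, rfl⟩, (hZ.pow0 (36 * y)).of_le ?_⟩
    rw [gm_pow, gm_abs, gm_abs, gm_le]
    filter_upwards [hlev] with N hN
    exact (hN.2.2.1 r ν).trans (le_abs_self _)
  let uK : Fin N' → ι → S.K := fun r ν => ⟨_, Lam_le_K (hu r ν)⟩
  have huK0 : ∀ r ν, deg ν ≠ j r → uK r ν = 0 := by
    intro r ν h
    refine Subtype.ext (gm_eq_zero.2 ?_)
    filter_upwards [hlev] with N hN
    rw [hN.2.1 r ν h, Int.cast_zero]
  have huK1 : ∀ x : Fin N' → S.K, (∀ ν, ∑ r, x r * uK r ν = 0) → ∀ r, x r = 0 := by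
    intro x hx
    choose xs hxs using fun r => gm_surj (x r : S.L)
    have h1 : ∀ ν, ∀ᶠ N in S.U, ∑ r, xs r N * (u N r ν : ℝ) = 0 := by
      intro ν
      have := congrArg (fun z : S.K => (z : S.L)) (hx ν)
      simp only [AddSubmonoidClass.coe_finsetSum, Subfield.coe_mul, ← hxs, uK, gm_mul, gm_sum,
        ZeroMemClass.coe_zero] at this
      exact gm_eq_zero.1 this
    intro r
    refine Subtype.ext ?_
    rw [← hxs]
    refine gm_eq_zero.2 ?_
    filter_upwards [hlev, eventually_all.2 h1] with N hN hN'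
    refine Fintype.linearIndependent_iff.1 hN.2.2.2.1 (fun r => xs r N) ?_ r
    funext ν
    simpa only [Finset.sum_apply, Pi.smul_apply, smul_eq_mul, Pi.zero_apply] using hN' ν
  obtain ⟨m, A1, A2, B, B', hm, hA, hB⟩ :=
    rank_fact (Matrix.of fun (μ : κ) (r : Fin N') => ∑ ν, φ μ ν * uK r ν)
  rw [hy] at hm
  have hind' : ∀ (x : Fin N' → S.K) (j0 : ℕ), (∀ r, (j r : ℕ) ≠ j0 → x r = 0) →
      ∑ r, x r • ∑ ν, uK r ν • ρ ν = 0 → ∀ r, x r = 0 := by
    intro x j0 hx h0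
    refine huK1 x (hind (fun ν => ∑ r, x r * uK r ν) j0 (fun ν hν => ?_) ?_)
    · refine Finset.sum_eq_zero fun r _ => ?_
      by_cases h : (j r : ℕ) = j0
      · rw [huK0 r ν (h ▸ hν), mul_zero]
      · rw [hx r h, zero_mul]
    · rw [← h0]
      simp only [Finset.sum_smul, Finset.smul_sum, mul_smul]
      exact Finset.sum_comm
  have hslope : y * N' ≤ n * m := by
    by_cases hlt : (N' : ℕ) + m < s
    · have := ih _ hlt (Fin N') (Fin m) (by simp only [Fintype.card_fin, Nat.add_left_cancel_iff]) (by simpa only [Fintype.card_fin] using hN1) (fun r => j r)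
        (fun r => ∑ ν, uK r ν • ρ ν) (fun s r => A2 s r) (fun s => ∑ μ, A1 μ s • g μ)
        (fun r => Submodule.sum_mem _ fun ν _ => Submodule.smul_mem _ _ (hρ ν)) hind'
        (fun s => Bd_sum _ _ fun μ _ => (hg μ).smul _) (fun r => by
          have e : S.cst (Real.exp (-((j r : ℕ) : ℝ))) * ∑ ν, uK r ν • ρ ν -
              ∑ s, A2 s r • ∑ μ, A1 μ s • g μ = ∑ ν, uK r ν •
                (S.cst (Real.exp (-(deg ν : ℝ))) * ρ ν - ∑ μ, φ μ ν • g μ) := by
            have e1 : ∑ s, A2 s r • ∑ μ, A1 μ s • g μ = ∑ ν, uK r ν • ∑ μ, φ μ ν • g μ := by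
              have e2 : ∀ μ, ∑ ν, φ μ ν * uK r ν = ∑ s, A1 μ s * A2 s r := fun μ =>
                congrFun (congrFun hA μ) r
              simp only [Finset.smul_sum, smul_smul]
              rw [Finset.sum_comm, Finset.sum_comm (s := Finset.univ (α := ι))]
              refine Finset.sum_congr rfl fun μ _ => ?_
              rw [← Finset.sum_smul, ← Finset.sum_smul]
              simp only [mul_comm (A2 _ _), mul_comm (uK _ _), e2]
            rw [e1, Finset.mul_sum, ← Finset.sum_sub_distrib]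
            refine Finset.sum_congr rfl fun ν _ => ?_
            rw [smul_sub, mul_smul_comm]
            by_cases h : deg ν = j r
            · rw [h]
            · rw [huK0 r ν h]; simp only [zero_smul, sub_self]
          rw [e]
          exact Bd_sum _ _ fun ν _ => (hω ν).smul _)
      simp only [Fintype.card_fin] at this
      nlinarith only [hcon, this]
    · have h1 := N'.2
      have h2 : (N' : ℕ) = n := by omega
      have h3 : m = y := by omega
      rw [h2, h3, mul_comm]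
  choose Bs hBs using fun a b => gm_surj (B a b : S.L)
  choose Bs' hBs' using fun a b => gm_surj (B' a b : S.L)
  have hBN : ∀ a b, ∀ᶠ N in S.U, ((Matrix.of fun a b => Bs a b N) *
      (Matrix.of fun μ r => ∑ ν, (Φ (μ, ν) N : ℝ) * u N r ν) *
      (Matrix.of fun a b => Bs' a b N)) a b = (1 : Matrix (Fin m) (Fin m) ℝ) a b := by
    intro a b
    have h1 := congrArg (fun z : S.K => (z : S.L)) (congrFun (congrFun hB a) b)
    have h2 : (((1 : Matrix (Fin m) (Fin m) S.K) a b : S.K) : S.L) =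
        S.gm fun _ => (1 : Matrix (Fin m) (Fin m) ℝ) a b := by
      simp only [Matrix.one_apply]
      split_ifs
      · exact gm_one
      · exact (map_zero S.gm).symm
    simp only [Matrix.mul_apply, Matrix.of_apply, AddSubmonoidClass.coe_finsetSum,
      Subfield.coe_mul, ← hBs, ← hBs', ← hΦ (_, _), uK, gm_mul, gm_sum, h2] at h1
    simpa only [Matrix.mul_apply, Matrix.of_apply] using gm_eq.1 h1
  have hr0 : ∑ ν, uK ⟨0, hN1⟩ ν • ρ ν ≠ 0 := by
    intro h
    have := hind' (Pi.single ⟨0, hN1⟩ 1) (j ⟨0, hN1⟩) (fun r hr => by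
      rw [Pi.single_eq_of_ne]; rintro rfl; exact hr rfl) (by
      rw [Finset.sum_eq_single ⟨0, hN1⟩, h, smul_zero]
      · intro b _ hb; rw [Pi.single_eq_of_ne hb, zero_smul]
      · simp only [Finset.mem_univ, not_true_eq_false, Pi.single_eq_same, one_smul, IsEmpty.forall_iff]) ⟨0, hN1⟩
    simp at this
  simp only [Subfield.smul_def, smul_eq_mul, uK, ← hρs, gm_mul, gm_sum] at hr0
  have hq1 : ∀ ν, ∀ᶠ N in S.U, (zρ ν N : ℝ) = qs N * ρs ν N := by
    intro ν
    have := hzρ ν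
    rw [← mul_assoc, ← hqs, ← hρs, gm_mul] at this
    exact gm_eq.1 this
  have hq2 : ∀ᶠ N in S.U, qs N ≠ 0 := gm_ne_zero.1 (hqs ▸ mul_ne_zero hl20 hq0)
  have hfin : ∀ᶠ N in S.U, (1 : ℝ) ≤ |qs N| * (Z N ^ (36 * y + 4) *
      (Real.exp (-(3 * c / 2) * S.h N) * ∑ μ, |gs μ N| +
        Real.exp (c / 2 * S.h N) * ∑ ν, |ωs ν N|)) := by
    filter_upwards [hlev, eventually_all.2 fun a => eventually_all.2 (hBN a), gm_ne_zero.1 hr0,
      eventually_all.2 hq1, hq2, ht1] with N h1 h2 h3 h4 h5 h6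
    have pG : 0 ≤ ∑ μ, |gs μ N| := by positivity
    have pϖ : 0 ≤ ∑ ν, |ωs ν N| := by positivity
    have h7 := h1.2.2.2.2 m _ _ (Matrix.ext h2) hslope (by omega) (fun ν => ρs ν N)
      (fun ν => ωs ν N) (fun μ => gs μ N) (qs N) (∑ μ, |gs μ N|) (∑ ν, |ωs ν N|) ⟨0, hN1⟩
      (fun ν => ⟨_, (h4 ν).symm⟩) h5 pG pϖ (fun ν => by simp only [ωs, add_sub_cancel])
      (fun μ => Finset.single_le_sum (f := fun μ => |gs μ N|) (fun _ _ => abs_nonneg _)
        (Finset.mem_univ μ))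
      (fun ν => Finset.single_le_sum (f := fun ν => |ωs ν N|) (fun _ _ => abs_nonneg _)
        (Finset.mem_univ ν)) h3
    refine h7.trans ?_
    have pZ : 0 ≤ Z N := by simp only [Z]; positivity
    have h9 : (((12 * y + 1) * t N).factorial : ℝ) /
        (4 * ((12 * y + 1) * (t N + 1))).factorial ≤ Real.exp (-(3 * c / 2) * S.h N) := by
      rw [div_le_iff₀ (by positivity)]
      have e1 : Real.exp (c / 2 * S.h N) ^ 4 ≤ (4 * ((12 * y + 1) * (t N + 1))).factorial := by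
        refine le_trans (pow_le_pow_left₀ (Real.exp_pos _).le h6.2 4) ?_
        exact_mod_cast fac_four _
      refine h6.1.trans (le_trans (le_of_eq ?_)
        (mul_le_mul_of_nonneg_left e1 (Real.exp_pos _).le))
      rw [← Real.exp_nat_mul, ← Real.exp_add]
      congr 1; push_cast; ring
    calc _ = |qs N| * (Z N ^ (36 * y + 4) * ((((12 * y + 1) * t N).factorial : ℝ) /
          (4 * ((12 * y + 1) * (t N + 1))).factorial * ∑ μ, |gs μ N| +
          (((12 * y + 1) * t N).factorial : ℝ) * ∑ ν, |ωs ν N|)) := by ring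
      _ ≤ _ := by gcongr; exact h6.1
  have hfin' : (1 : S.L) ≤ |l2 * q| * (S.gm Z ^ (36 * y + 4) *
      (S.Xp (-(3 * c / 2)) * ∑ μ, |g μ| + S.Xp (c / 2) * ∑ ν, |S.gm (ωs ν)|)) := by
    simp only [← hqs, ← hgs, gm_abs, Xp, gm_sum, gm_mul, gm_pow, gm_add]
    rw [gm_one]
    exact gm_le.2 hfin
  refine not_Bd (a := c + -(3 * c / 2)) (by linarith only [hc]) ?_ hfin'
  refine (hl2.2.mul0 hqc).abs.mul ((hZ.pow0 _).mul0 (Bd.add ?_ ?_))
  · simpa only [add_zero] using (Bd_Xp _).mul (Bd_sum _ _ fun μ _ => (hg μ).abs)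
  · exact ((Bd_Xp _).mul (Bd_sum _ _ fun ν _ => (hωs ν).abs)).mono (by linarith only [])

/-- Subspace form of the core inequality. -/
theorem core2 (S : Sc) {c : ℝ} (hc : 0 < c) {q : S.L} (hq0 : q ≠ 0) (hqc : S.Bd c q)
    (U Y : Submodule S.K S.L) [Module.Finite S.K U] [Module.Finite S.K Y] (hU : U ≤ S.MM q)
    (hY : Y ≤ S.TT 0) (Δ : ℕ) (hΔ : 1 ≤ Δ) (hU1 : 1 ≤ Module.finrank S.K U)
    (h : ∀ i < Δ, ∀ u ∈ U, S.cst (Real.exp (-(i : ℝ))) * u ∈ Y ⊔ S.TT (-(2 * c))) :
    Δ * Module.finrank S.K U < 8 * Module.finrank S.K Y := by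
  classical
  let bU := Module.finBasis S.K U
  let bY := Module.finBasis S.K Y
  have h1 : ∀ a : Fin Δ × Fin (Module.finrank S.K U), ∃ w : Y,
      S.Bd (-(2 * c)) (S.cst (Real.exp (-((a.1 : ℕ) : ℝ))) * bU a.2 - w) := by
    intro a
    obtain ⟨w, hw, z, hz, e⟩ := Submodule.mem_sup.1 (h a.1 a.1.2 _ (bU a.2).2)
    refine ⟨⟨w, hw⟩, ?_⟩
    rw [← e, add_sub_cancel_left]; exact hz
  choose w hw using h1
  have := core S hc hq0 hqc _ (Fin Δ × Fin (Module.finrank S.K U)) (Fin (Module.finrank S.K Y))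
    rfl (by rw [Fintype.card_prod, Fintype.card_fin, Fintype.card_fin]; exact Nat.mul_pos hΔ hU1) (fun a => a.1) (fun a => bU a.2)
    (fun μ a => bY.repr (w a) μ) (fun μ => bY μ) (fun a => hU (bU a.2).2) (fun x j hx h0 a => by
      by_cases ha : (a.1 : ℕ) = j
      swap
      · exact hx a ha
      rw [Fintype.sum_prod_type, Finset.sum_eq_single a.1] at h0
      · have h2 : ∑ b, x (a.1, b) • bU b = 0 := by
          apply Subtype.ext
          simpa only [AddSubmonoidClass.coe_finsetSum, SetLike.val_smul, ZeroMemClass.coe_zero] using h0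
        exact Fintype.linearIndependent_iff.1 bU.linearIndependent _ h2 a.2
      · intro i _ hi
        refine Finset.sum_eq_zero fun b _ => ?_
        rw [hx (i, b) (fun e => hi (Fin.ext (e.trans ha.symm))), zero_smul]
      · simp only [Finset.mem_univ, not_true_eq_false, IsEmpty.forall_iff]) (fun μ => hY (bY μ).2) (fun a => by
      have e : ∑ μ, bY.repr (w a) μ • (bY μ : S.L) = w a := by
        have := congrArg Subtype.val (bY.sum_repr (w a))
        rw [AddSubmonoidClass.coe_finsetSum] at this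
        exact this
      rw [e]; exact hw a)
  simpa only [gt_iff_lt, Fintype.card_prod, Fintype.card_fin] using this

end H25E

end
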