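import Pool.Agent.MP_3fa95c_lc.H25.A

attribute [-instance] Submodule.module' Module.FaithfullyFlat.of_isIntegral_of_isDomain
  Algebra.ofSubsemiring instZeroLEOneClass Fintype.decidableForallFintype AddQuantale.instAddLeftMono
  RKHS.instFunLike NormedAlgebra.toAlgebra littleWedderburn NumberField.to_charZero instCoeTCOfCoe
  RCLike.charZero_rclike RingConeClass.toSubsemiringClass IdemCommSemiring.toIdemSemiring
  NormedSpace.toModule IdemSemiring.toCanonicallyOrderedAdd IsOrderedRing.toIsStrictOrderedRing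
  SubmoduleClass.module MonTypeEquivalenceMon.monMonoid
  ContinuousMonoidHom.instCoeOutOfMonoidHomClassOfContinuousMapClass
  SetLike.GradeZero.instCommSemiring SetLike.GradeZero.instSemiring LieAlgebra.toModule
  AddQuantale.instAddRightMono RightPreLieAlgebra.toModule
  Group.IsPerfect.subsingleton_of_isMulCommutative LeftPreLieAlgebra.toModule instCoeTOfCoeDep
  CommMonoid.toMonoid Finset.decidableDforallFinset GradedMonoid.GradeZero.monoid
  CompletePartialOrder.toPartialOrder Multiset.decidableDforallMultiset Quantale.instMulRightMono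
  AddGroupSeminormClass.toNonnegHomClass IdemSemiring.toMulLeftMono Int.decidableLTLE
  Vector.instDecidableForallForallMemOfDecidablePred RingSeminormClass.toNonnegHomClass
  instCharZeroOfIsSemireal

section
/-! Dimension counting in the ring of values (helper25). -/

open Filter Module Submodule

namespace H25E

section abstract

variable {K L : Type} [Field K] [Field L] [Algebra K L]

lemma finrank_mul_le {M N : Submodule K L} (hM : M.FG) (hN : N.FG) :
    finrank K ↥(M * N) ≤ finrank K M * finrank K N := by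
  have := Module.Finite.iff_fg.2 hM
  have := Module.Finite.iff_fg.2 hN
  rw [← Submodule.mulMap_range, ← Module.finrank_tensorProduct]
  exact LinearMap.finrank_range_le _

lemma finrank_le_of_le {M N : Submodule K L} (hN : N.FG) (h : M ≤ N) :
    finrank K M ≤ finrank K N := by
  have := Module.Finite.iff_fg.2 hN
  exact Submodule.finrank_mono h

lemma finrank_span_image {α : Type} (f : α → L) (s : Finset α) :
    finrank K (span K (f '' s)) ≤ s.card := by
  classical
  rw [← Finset.coe_image]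
  exact (finrank_span_finset_le_card (R := K) _).trans Finset.card_image_le

variable (K) in
/-- Span of the first `D` terms of a sequence. -/
def im (f : ℕ → L) (D : ℕ) : Submodule K L := span K (f '' Set.Iio D)

variable (K) in
/-- Span of a family over a box. -/
def bx {I : Type} (f : (I → ℕ) → L) (R : ℕ) : Submodule K L := span K (f '' {m | ∀ i, m i ≤ R})

lemma im_fg (f : ℕ → L) (D : ℕ) : (im K f D).FG := fg_span ((Set.finite_Iio D).image f)

lemma finrank_im (f : ℕ → L) (D : ℕ) : finrank K (im K f D) ≤ D := by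
  have := finrank_span_image (K := K) f (Finset.range D)
  rwa [Finset.coe_range, Finset.card_range] at this

lemma box_eq {I : Type} [Fintype I] [DecidableEq I] (R : ℕ) : {m : I → ℕ | ∀ i, m i ≤ R} =
    (Fintype.piFinset fun _ : I => Finset.range (R + 1) : Finset (I → ℕ)) := by
  ext m; simp only [Set.mem_ofPred_eq, Fintype.coe_piFinset, Finset.coe_range, Set.mem_pi, Set.mem_univ, Set.mem_Iio, Order.lt_add_one_iff, forall_const]

lemma bx_fg {I : Type} [Fintype I] (f : (I → ℕ) → L) (R : ℕ) : (bx K f R).FG := by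
  classical
  refine fg_span (Set.Finite.image f ?_)
  rw [box_eq]; exact Finset.finite_toSet _

lemma finrank_bx {I : Type} [Fintype I] (f : (I → ℕ) → L) (R : ℕ) :
    finrank K (bx K f R) ≤ (R + 1) ^ Fintype.card I := by
  classical
  have := finrank_span_image (K := K) f (Fintype.piFinset fun _ : I => Finset.range (R + 1))
  rw [← box_eq, Fintype.card_piFinset, Finset.prod_const, Finset.card_range] at this
  exact this

lemma bx_mono {I : Type} (f : (I → ℕ) → L) {R R' : ℕ} (h : R ≤ R') : bx K f R ≤ bx K f R' :=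
  span_mono (Set.image_mono fun _ hm i => (hm i).trans h)

lemma mem_bx {I : Type} (f : (I → ℕ) → L) {R : ℕ} {m : I → ℕ} (h : ∀ i, m i ≤ R) :
    f m ∈ bx K f R := subset_span ⟨m, h, rfl⟩

lemma mem_im (f : ℕ → L) {D t : ℕ} (h : t < D) : f t ∈ im K f D := subset_span ⟨t, h, rfl⟩

lemma im_mono (f : ℕ → L) {D D' : ℕ} (h : D ≤ D') : im K f D ≤ im K f D' :=
  span_mono (Set.image_mono fun _ ht => lt_of_lt_of_le ht h)

variable (K) in
/-- Span of `1` and the blocks. -/
def bl {r : ℕ} (β : Fin r → L) : Submodule K L := span K (insert 1 (Set.range β))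

lemma bl_fg {r : ℕ} (β : Fin r → L) : (bl K β).FG := fg_span ((Set.finite_range β).insert 1)

lemma one_mem_bl {r : ℕ} (β : Fin r → L) : 1 ∈ bl K β := subset_span (Set.mem_insert _ _)

lemma mem_bl {r : ℕ} (β : Fin r → L) (a : Fin r) : β a ∈ bl K β :=
  subset_span (Set.mem_insert_of_mem _ ⟨a, rfl⟩)

lemma finrank_bl_pow {r : ℕ} (β : Fin r → L) (j : ℕ) : finrank K ↥(bl K β ^ j) ≤ (j + 1) ^ r := by
  have h : bl K β ^ j ≤ bx K (fun κ => ∏ a, β a ^ κ a) j := by
    induction j with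
    | zero =>
      rw [pow_zero, Submodule.one_le]
      simpa only [Pi.zero_apply, pow_zero, Finset.prod_const_one] using mem_bx (fun κ => ∏ a, β a ^ κ a) (R := 0) (m := 0) (by simp)
    | succ j ih =>
      rw [pow_succ]
      refine (mul_le_mul_left ih _).trans ?_
      rw [bx, bl, span_mul_span, span_le]
      rintro _ ⟨_, ⟨κ, hκ, rfl⟩, z, hz, rfl⟩
      rcases hz with rfl | ⟨b, rfl⟩
      · simpa only [mul_one, SetLike.mem_coe] using mem_bx (fun κ => ∏ a, β a ^ κ a) (R := j + 1) (m := κ)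
          fun i => (hκ i).trans (Nat.le_succ j)
      · have := mem_bx (K := K) (fun κ => ∏ a, β a ^ κ a) (R := j + 1) (m := κ + Pi.single b 1)
          fun i => by
            have := hκ i
            by_cases h : i = b
            · subst h; simpa using this
            · simp [Pi.single_eq_of_ne h]; omega
        have e : ∏ a, β a ^ (κ + Pi.single b 1 : Fin r → ℕ) a = (∏ a, β a ^ κ a) * β b := by
          simp only [Pi.add_apply, pow_add, Finset.prod_mul_distrib]
          congr 1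
          rw [Finset.prod_eq_single b] <;> simp +contextual only [Pi.single_eq_same, pow_one, Finset.mem_univ, ne_eq, not_false_eq_true, Pi.single_eq_of_ne, pow_zero, implies_true, imp_self, not_true_eq_false, IsEmpty.forall_iff]
        simp only [e] at this
        exact this
  simpa only [ge_iff_le, Fintype.card_fin] using (finrank_le_of_le (bx_fg _ _) h).trans (finrank_bx _ _)

variable (K) in
/-- The spaces of values of monomials. -/
def UU {r : ℕ} {I : Type} (β : Fin r → L) (W : L) (φ : (I → ℕ) → L) (j D R : ℕ) :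
    Submodule K L := bl K β ^ j * im K (W ^ ·) D * bx K φ R

variable {r : ℕ} {I : Type} [Fintype I] (β : Fin r → L) (W : L) (φ : (I → ℕ) → L)

lemma UU_fg (j D R : ℕ) : (UU K β W φ j D R).FG :=
  (((bl_fg β).pow j).mul (im_fg _ _)).mul (bx_fg _ _)

lemma UU_mono_D (j R : ℕ) {D D' : ℕ} (h : D ≤ D') :
    finrank K (UU K β W φ j D R) ≤ finrank K (UU K β W φ j D' R) :=
  finrank_le_of_le (UU_fg β W φ _ _ _) (mul_le_mul_left (mul_le_mul_right (im_mono _ h) _) _)

lemma UU_four (j D R : ℕ) :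
    finrank K (UU K β W φ j (4 * D) R) ≤ 4 * finrank K (UU K β W φ j D R) := by
  have h : im K (W ^ ·) (4 * D) ≤ im K (fun k => W ^ (k * D)) 4 * im K (W ^ ·) D := by
    rw [im, span_le]
    rintro _ ⟨t, ht, rfl⟩
    have ht' : t < 4 * D := ht
    have hD : 0 < D := by omega
    have e : W ^ t = W ^ (t / D * D) * W ^ (t % D) := by rw [← pow_add, Nat.div_add_mod']
    simp only [e]
    exact mul_mem_mul (mem_im (fun k => W ^ (k * D)) ((Nat.div_lt_iff_lt_mul hD).2 ht'))
      (mem_im (W ^ ·) (Nat.mod_lt _ hD))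
  have h2 : UU K β W φ j (4 * D) R ≤ im K (fun k => W ^ (k * D)) 4 * UU K β W φ j D R := by
    refine (mul_le_mul_left (mul_le_mul_right h _) _).trans (le_of_eq ?_)
    rw [UU]; ring
  refine (finrank_le_of_le ((im_fg _ _).mul (UU_fg β W φ _ _ _)) h2).trans ?_
  exact (finrank_mul_le (im_fg _ _) (UU_fg β W φ _ _ _)).trans
    (Nat.mul_le_mul_right _ (finrank_im _ _))

lemma UU_lower (j D R : ℕ) (hD : 1 ≤ D) :
    finrank K (bx K φ R) ≤ finrank K (UU K β W φ j D R) := by
  refine finrank_le_of_le (UU_fg β W φ _ _ _) fun x hx => ?_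
  have := mul_mem_mul (mul_mem_mul (pow_mem_pow _ (one_mem_bl (K := K) β) j)
    (mem_im (K := K) (W ^ ·) (t := 0) hD)) hx
  simpa [UU] using this

lemma UU_upper (j D R : ℕ) :
    finrank K (UU K β W φ j D R) ≤ (j + 1) ^ r * D * finrank K (bx K φ R) :=
  (finrank_mul_le (((bl_fg β).pow j).mul (im_fg _ _)) (bx_fg _ _)).trans
    (Nat.mul_le_mul_right _ ((finrank_mul_le ((bl_fg β).pow j) (im_fg _ _)).trans
      (Nat.mul_le_mul (finrank_bl_pow β j) (finrank_im _ _))))

lemma bx_pos (h0 : φ 0 ≠ 0) (R : ℕ) : 1 ≤ finrank K (bx K φ R) := by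
  have := Module.Finite.iff_fg.2 (bx_fg (K := K) φ R)
  rw [Nat.one_le_iff_ne_zero, Ne, Submodule.finrank_eq_zero]
  intro h
  have := mem_bx (K := K) φ (R := R) (m := 0) (by simp)
  rw [h] at this
  exact h0 this

end abstract

lemma growth_contra (r P : ℕ) (g : ℕ → ℕ → ℕ → ℕ) (ω : ℕ → ℕ)
    (hD : ∀ j R D D', D ≤ D' → g j D R ≤ g j D' R) (hl : ∀ j D R, 1 ≤ D → ω R ≤ g j D R)
    (hu : ∀ j D R, g j D R ≤ (j + 1) ^ r * D * ω R) (h1 : 1 ≤ ω 0) (hP : ∀ R, ω R ≤ (R + 1) ^ P)
    (step : ∀ d J R, 1 ≤ d → J + 256 * d ≤ 512 * (r + 2) * d →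
      2 * g J (512 * (r + 2) * d) R ≤ g (J + 256 * d) (512 * (r + 2) * d) (R + 256 * d)) :
    False := by
  have h2 : ∀ d R, 1 ≤ d → ∀ i ≤ r + 2,
      2 ^ i * g (256 * (r + 2) * d) (512 * (r + 2) * d) R ≤
        g (256 * (r + 2) * d + i * (256 * d)) (512 * (r + 2) * d) (R + i * (256 * d)) := by
    intro d R hd i
    induction i with
    | zero => simp
    | succ i ih =>
      intro hi
      have h3 := step d (256 * (r + 2) * d + i * (256 * d)) (R + i * (256 * d)) hd (by
        have : (i + 1) * (256 * d) ≤ (r + 2) * (256 * d) := Nat.mul_le_mul_right _ hi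
        linarith only [this])
      have h4 := ih (by omega)
      rw [pow_succ, add_mul i 1, one_mul, ← add_assoc, ← add_assoc]
      linarith only [h3, h4]
  have h3 : ∀ s, ∃ F, ∀ R, 2 ^ ((r + 2) * s) * ω R ≤
      g (256 * (r + 2) * 2 ^ s) (256 * (r + 2) * 2 ^ s) (R + F) := by
    intro s
    induction s with
    | zero => exact ⟨0, fun R => by simpa using hl _ _ R (by omega)⟩
    | succ s ih =>
      obtain ⟨F, hF⟩ := ih
      refine ⟨F + (r + 2) * (256 * 2 ^ s), fun R => ?_⟩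
      have h4 := h2 (2 ^ s) (R + F) Nat.one_le_two_pow (r + 2) le_rfl
      have h5 := hD (256 * (r + 2) * 2 ^ s) (R + F) (256 * (r + 2) * 2 ^ s)
        (512 * (r + 2) * 2 ^ s) (Nat.mul_le_mul_right _ (by omega))
      have e1 : 256 * (r + 2) * 2 ^ (s + 1) = 512 * (r + 2) * 2 ^ s := by ring
      have e2 : 256 * (r + 2) * 2 ^ s + (r + 2) * (256 * 2 ^ s) = 512 * (r + 2) * 2 ^ s := by ring
      rw [e2, add_assoc] at h4
      rw [e1, mul_add (r + 2) s 1, mul_one, pow_add, mul_comm (2 ^ ((r + 2) * s)), mul_assoc]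
      exact (Nat.mul_le_mul_left _ ((hF R).trans h5)).trans h4
  obtain ⟨s, hs⟩ : ∃ s, 2 * (512 * (r + 2)) ^ (r + 1) ≤ 2 ^ s := ⟨_, Nat.lt_two_pow_self.le⟩
  obtain ⟨F, hF⟩ := h3 s
  have h4 : ∀ R, 2 * ω R ≤ ω (R + F) := by
    intro R
    have h5 := (hF R).trans (hu _ _ _)
    have hE : 1 ≤ 256 * (r + 2) * 2 ^ s := Nat.mul_pos (by omega) (by positivity)
    have h6 : (256 * (r + 2) * 2 ^ s + 1) ^ r * (256 * (r + 2) * 2 ^ s) ≤
        (512 * (r + 2)) ^ (r + 1) * 2 ^ ((r + 1) * s) := by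
      rw [mul_comm (r + 1) s, pow_mul, ← mul_pow, pow_succ]
      have e : 512 * (r + 2) * 2 ^ s = 256 * (r + 2) * 2 ^ s + 256 * (r + 2) * 2 ^ s := by ring
      rw [e]
      exact Nat.mul_le_mul (Nat.pow_le_pow_left (by omega) _) (by omega)
    have h7 : 2 ^ ((r + 1) * s) * (512 * (r + 2)) ^ (r + 1) * (2 * ω R) ≤
        2 ^ ((r + 1) * s) * (512 * (r + 2)) ^ (r + 1) * ω (R + F) := by
      calc _ = 2 ^ ((r + 1) * s) * (2 * (512 * (r + 2)) ^ (r + 1)) * ω R := by ring
        _ ≤ 2 ^ ((r + 1) * s) * 2 ^ s * ω R := by gcongr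
        _ = 2 ^ ((r + 2) * s) * ω R := by rw [← pow_add]; congr 2; ring
        _ ≤ _ := h5
        _ ≤ (512 * (r + 2)) ^ (r + 1) * 2 ^ ((r + 1) * s) * ω (R + F) :=
          Nat.mul_le_mul_right _ h6
        _ = _ := by ring
    exact Nat.le_of_mul_le_mul_left h7 (by positivity)
  have h5 : ∀ n, 2 ^ n ≤ ω (n * F) := by
    intro n
    induction n with
    | zero => simpa using h1
    | succ n ih => rw [pow_succ, add_mul, one_mul]; linarith only [h4 (n * F), ih]
  have h6 := (tendsto_pow_const_div_const_pow_of_one_lt P (r := 2) one_lt_two).eventually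
    (gt_mem_nhds (show (0 : ℝ) < 1 / (F + 1) ^ P by positivity))
  obtain ⟨n, hn1, hn2⟩ := (h6.and (eventually_ge_atTop 1)).exists
  rw [div_lt_div_iff₀ (by positivity) (by positivity), one_mul, ← mul_pow] at hn1
  have h7 : 2 ^ n ≤ (n * (F + 1)) ^ P :=
    (h5 n).trans ((hP _).trans (Nat.pow_le_pow_left (by linarith only [hn2]) _))
  have h8 : (2 : ℝ) ^ n ≤ (n * (F + 1)) ^ P := by exact_mod_cast h7
  linarith only [hn1, h8]

namespace Sc

variable {S : Sc}

lemma MM_mul {p q : S.L} : S.MM p * S.MM q ≤ S.MM (p * q) := by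
  rw [Submodule.mul_le]
  rintro x ⟨hx, a, ha, ha0, ha1⟩ y ⟨hy, b, hb, hb0, hb1⟩
  refine ⟨hx.mul0 hy, a * b, mul_mem ha hb, mul_ne_zero ha0 hb0, ?_⟩
  rw [show a * b * (p * q * (x * y)) = (a * (p * x)) * (b * (q * y)) by ring]
  exact mul_mem ha1 hb1

lemma one_mem_MM {q : S.L} (hq : q ∈ S.Zh) : 1 ∈ S.MM q :=
  ⟨Bd_one, 1, one_mem _, one_ne_zero, by simpa using hq⟩

lemma MM_pow {q : S.L} {M : Submodule S.K S.L} (h : M ≤ S.MM q) (j : ℕ) :
    M ^ j ≤ S.MM (q ^ j) := by
  induction j with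
  | zero => rw [pow_zero, Submodule.pow_zero, Submodule.one_le]; exact one_mem_MM (one_mem _)
  | succ j ih => rw [pow_succ, Submodule.pow_succ]; exact (mul_le_mul' ih h).trans MM_mul

lemma MM_mono {p q : S.L} (hq : q ∈ S.Zh) : S.MM p ≤ S.MM (p * q) := fun x hx => by
  simpa using MM_mul (mul_mem_mul hx (one_mem_MM hq))

lemma TT_mul {a : ℝ} : S.TT 0 * S.TT a ≤ S.TT a :=
  Submodule.mul_le.2 fun _ hx _ hy => Bd.mul0 hx hy

lemma MM_le_TT {q : S.L} : S.MM q ≤ S.TT 0 := fun _ hx => hx.1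

lemma sup_mul_sup {a : ℝ} (ha : a ≤ 0) {A B : Submodule S.K S.L} (hA : A ≤ S.TT 0)
    (hB : B ≤ S.TT 0) : (A ⊔ S.TT a) * (B ⊔ S.TT a) ≤ A * B ⊔ S.TT a := by
  have hT : S.TT a ≤ S.TT 0 := fun _ hx => Bd.mono hx ha
  rw [Submodule.mul_sup, Submodule.sup_mul]
  refine sup_le (sup_le le_sup_left (le_sup_of_le_right ?_)) (le_sup_of_le_right ?_)
  · exact Submodule.mul_le.2 fun x hx y hy => by rw [mul_comm]; exact Bd.mul0 (hB hy) hx
  · exact (mul_le_mul_left (sup_le hA hT) _).trans TT_mul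

end Sc

open Sc

theorem germ_contra (S : Sc) (r : ℕ) {I : Type} [Fintype I] [DecidableEq I] (β : Fin r → S.L)
    (lab : I → Fin r) (w : I → S.L) (φ : (I → ℕ) → S.L) (hQ : S.Xp 1 ∈ S.Zh)
    (hβ : ∀ a, β a ∈ S.MM (S.Xp 1)) (hφ : ∀ m, φ m ∈ S.MM (S.Xp 1)) (hφ0 : φ 0 ≠ 0)
    (hw : ∀ i m, ∃ c : ℕ, w i * φ m = S.Xp (-1) ^ c * φ (m + Pi.single i 1))
    (hx : S.Bd (-(512 * (r + 2) : ℕ)) (S.cst (Real.exp 1) - ∑ i, β (lab i) * w i)) : False := by
  set x := ∑ i, β (lab i) * w i with hxd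
  set W := S.Xp (-1) with hW
  have hx1 : 1 ≤ x := by
    have h1 := hx 1 one_pos
    have h2 : S.Xp (-(512 * (r + 2) : ℕ) + 1) ≤ 1 := by
      rw [← Xp_zero]; refine Xp_mono ?_
      push_cast; linarith [(Nat.cast_nonneg r : (0 : ℝ) ≤ r)]
    have h3 : (2 : S.L) ≤ S.cst (Real.exp 1) := by
      rw [← map_ofNat S.cst 2, cst_def, cst_def, gm_le]
      exact Eventually.of_forall fun _ => Real.exp_one_gt_two.le
    linarith only [le_abs_self (S.cst (Real.exp 1) - x), h1, h2, h3]
  have hx0 : x ≠ 0 := by intro h; rw [h] at hx1; exact absurd hx1 (by norm_num)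
  have hxi : S.Bd 0 x⁻¹ := Bd_one.of_le (by
    rw [abs_one, abs_inv, abs_of_pos (by linarith)]; exact inv_le_one_of_one_le₀ hx1)
  have hee : S.cst (Real.exp (-1)) * S.cst (Real.exp 1) = 1 := by
    rw [← map_mul, ← Real.exp_add]; simp
  obtain ⟨lam, hlam, hlam1⟩ : ∃ lam, S.Bd (-(512 * (r + 2) : ℕ)) lam ∧
      lam + 1 = x * S.cst (Real.exp (-1)) := by
    refine ⟨-(S.cst (Real.exp (-1)) * (S.cst (Real.exp 1) - x)), ((Bd_cst _).mul0 hx).neg, ?_⟩
    linear_combination -hee
  have hlam0 : S.Bd 0 lam := hlam.mono (by simp only [Nat.cast_mul, Nat.cast_ofNat, Nat.cast_add, Left.neg_nonpos_iff, Nat.ofNat_pos, mul_nonneg_iff_of_pos_left]; positivity)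
  have hW0 : S.Bd 0 W := (Bd_Xp _).mono (by norm_num)
  have hB : bl S.K β ≤ S.MM (S.Xp 1) := by
    rw [bl, span_le]
    rintro _ (rfl | ⟨a, rfl⟩)
    · exact one_mem_MM hQ
    · exact hβ a
  have hF : ∀ R, bx S.K φ R ≤ S.MM (S.Xp 1) := fun R => by
    rw [bx, span_le]; rintro _ ⟨m, -, rfl⟩; exact hφ m
  have hWD : ∀ D, im S.K (W ^ ·) D ≤ S.MM (S.Xp 1 ^ D) := fun D => by
    rw [im, span_le]
    rintro _ ⟨t, ht, rfl⟩
    refine ⟨hW0.pow0 t, 1, one_mem _, one_ne_zero, ?_⟩
    have ht' : t < D := ht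
    obtain ⟨k, rfl⟩ := Nat.exists_eq_add_of_le ht'.le
    have e : S.Xp 1 * W = 1 := by rw [hW, ← Xp_add]; simp [Xp_zero]
    rw [one_mul, show S.Xp 1 ^ (t + k) * W ^ t = (S.Xp 1 * W) ^ t * S.Xp 1 ^ k by ring, e,
      one_pow, one_mul]
    exact pow_mem hQ k
  have hU : ∀ j D R, UU S.K β W φ j D R ≤ S.MM (S.Xp 1 ^ (j + D + 1)) := fun j D R => by
    rw [pow_succ, pow_add]
    exact (mul_le_mul' ((mul_le_mul' (MM_pow hB j) (hWD D)).trans MM_mul) (hF R)).trans MM_mul
  let Wi : Submodule S.K S.L := span S.K (Set.range (W ^ · : ℕ → S.L))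
  have hWi : Wi * Wi ≤ Wi := by
    rw [span_mul_span, span_le]
    rintro _ ⟨_, ⟨a, rfl⟩, _, ⟨b, rfl⟩, rfl⟩
    exact subset_span ⟨a + b, pow_add _ _ _⟩
  let V : ℕ → ℕ → Submodule S.K S.L := fun j R => bl S.K β ^ j * Wi * bx S.K φ R
  have hV1 : ∀ j R, V j R ≤ V (j + 1) (R + 1) := fun j R => by
    refine mul_le_mul' (mul_le_mul_left ?_ _) (bx_mono φ (Nat.le_succ R))
    intro y hy
    rw [pow_succ]
    simpa using mul_mem_mul hy (one_mem_bl β)
  have hV2 : ∀ j R, span S.K {x} * V j R ≤ V (j + 1) (R + 1) := fun j R => by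
    have h1 : span S.K {x} * bx S.K φ R ≤ bl S.K β * Wi * bx S.K φ (R + 1) := by
      rw [bx, span_mul_span, span_le]
      rintro _ ⟨_, rfl, _, ⟨m, hm, rfl⟩, rfl⟩
      simp only [hxd, Finset.sum_mul, SetLike.mem_coe]
      refine sum_mem fun i _ => ?_
      obtain ⟨c, hc⟩ := hw i m
      rw [mul_assoc (β _), hc, ← mul_assoc (β _)]
      refine mul_mem_mul (mul_mem_mul (mem_bl β _) (subset_span ⟨c, rfl⟩)) (mem_bx φ fun i' => ?_)
      have := hm i'
      by_cases h : i' = i
      · subst h; simpa using this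
      · simp [Pi.single_eq_of_ne h]; omega
    calc span S.K {x} * V j R = bl S.K β ^ j * Wi * (span S.K {x} * bx S.K φ R) := by
          simp only [V]; ring
      _ ≤ bl S.K β ^ j * Wi * (bl S.K β * Wi * bx S.K φ (R + 1)) := mul_le_mul_right h1 _
      _ = bl S.K β ^ (j + 1) * (Wi * Wi) * bx S.K φ (R + 1) := by ring
      _ ≤ V (j + 1) (R + 1) := mul_le_mul_left (mul_le_mul_right hWi _) _
  have hV3 : ∀ j R u, u ∈ V j R → ∀ k, ∀ i ≤ k, x ^ i * u ∈ V (j + k) (R + k) := by
    intro j R u hu k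
    induction k with
    | zero => intro i hi; simpa [Nat.le_zero.1 hi] using hu
    | succ k ih =>
      intro i hi
      rcases Nat.lt_succ_iff_lt_or_eq.1 (Nat.lt_succ_of_le hi) with h | rfl
      · exact hV1 _ _ (ih i (by omega))
      · rw [pow_succ', mul_assoc]
        exact hV2 _ _ (mul_mem_mul (mem_span_singleton_self x) (ih k le_rfl))
  have hV4 : ∀ j R (A : ℕ), V j R ≤ UU S.K β W φ j A R ⊔ S.TT (-A) := by
    intro j R A
    have h1 : Wi ≤ im S.K (W ^ ·) A ⊔ S.TT (-A) := by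
      rw [span_le]
      rintro _ ⟨t, rfl⟩
      by_cases ht : t < A
      · exact mem_sup_left (mem_im (W ^ ·) ht)
      · refine mem_sup_right (((Bd_Xp _).pow t).mono ?_)
        have : (A : ℝ) ≤ t := by exact_mod_cast not_lt.1 ht
        linarith only [this]
    have hA : -(A : ℝ) ≤ 0 := by simp only [Left.neg_nonpos_iff, Nat.cast_nonneg]
    have h2 := (MM_pow hB j).trans MM_le_TT
    have h3 := (hWD A).trans MM_le_TT
    exact (mul_le_mul' ((mul_le_mul' le_sup_left h1).trans (sup_mul_sup hA h2 h3))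
      le_sup_left).trans (sup_mul_sup hA ((mul_le_mul' h2 h3).trans TT_mul)
        ((hF R).trans MM_le_TT))
  refine growth_contra r (Fintype.card I) (fun j D R => finrank S.K (UU S.K β W φ j D R))
    (fun R => finrank S.K (bx S.K φ R)) (fun j R D D' h => UU_mono_D β W φ j R h)
    (fun j D R h => UU_lower β W φ j D R h) (UU_upper β W φ) (bx_pos φ hφ0 0) (finrank_bx φ)
    fun d J R hd hJ => ?_
  set D := 512 * (r + 2) * d with hD
  have hD1 : 1 ≤ D := by omega
  let Y0 := im S.K (fun t => x⁻¹ ^ (256 * d) * lam ^ t) (4 * d)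
  have hY0 : Y0 ≤ S.TT 0 := by
    refine span_le.2 ?_
    rintro _ ⟨t, -, rfl⟩
    exact (hxi.pow0 _).mul0 (hlam0.pow0 _)
  have hY1 := (hU (J + 256 * d) (4 * D) (R + 256 * d)).trans MM_le_TT
  have f1 := Module.Finite.iff_fg.2 (UU_fg (K := S.K) β W φ J D R)
  have f2 := Module.Finite.iff_fg.2 ((im_fg (K := S.K) (fun t => x⁻¹ ^ (256 * d) * lam ^ t)
    (4 * d)).mul (UU_fg β W φ (J + 256 * d) (4 * D) (R + 256 * d)))
  have key := core2 S (c := 2 * D) (by positivity) (q := S.Xp 1 ^ (2 * D))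
    (pow_ne_zero _ (Xp_pos _).ne') (by simpa using (Bd_Xp (S := S) 1).pow (2 * D))
    (UU S.K β W φ J D R) (Y0 * UU S.K β W φ (J + 256 * d) (4 * D) (R + 256 * d)) (by
      obtain ⟨k, hk⟩ : ∃ k, 2 * D = J + D + 1 + k := ⟨2 * D - (J + D + 1), by omega⟩
      rw [hk, pow_add _ _ k]
      exact (hU J D R).trans (MM_mono (pow_mem hQ k)))
    ((mul_le_mul' hY0 hY1).trans TT_mul) (256 * d) (by omega)
    ((bx_pos φ hφ0 R).trans (UU_lower β W φ J D R hD1)) (fun i hi u hu => by
      have h1 : u ∈ V J R :=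
        mul_le_mul_left (mul_le_mul_right (span_mono (Set.image_subset_range _ _)) _) _ hu
      have h2 := hV4 _ _ (4 * D) (hV3 J R u h1 (256 * d) (256 * d - i) (Nat.sub_le _ _))
      have ea : -((4 * D : ℕ) : ℝ) = -(2 * (2 * D)) := by push_cast; ring
      rw [ea] at h2
      have h3 : x⁻¹ ^ (256 * d) * (lam + 1) ^ i ∈ Y0 ⊔ S.TT (-(2 * (2 * D))) := by
        rw [add_pow, Finset.mul_sum]
        refine sum_mem fun t _ => ?_
        have e : x⁻¹ ^ (256 * d) * (lam ^ t * 1 ^ (i - t) * (i.choose t : S.L)) =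
            i.choose t • (x⁻¹ ^ (256 * d) * lam ^ t) := by rw [nsmul_eq_mul]; ring
        rw [e]
        refine nsmul_mem (S := Y0 ⊔ S.TT (-(2 * (2 * D)))) ?_ _
        by_cases ht : t < 4 * d
        · exact mem_sup_left (mem_im (fun t => x⁻¹ ^ (256 * d) * lam ^ t) ht)
        · refine mem_sup_right ((hxi.pow0 _).mul0 ((hlam.pow t).mono ?_))
          have h4 : 4 * d * (512 * (r + 2)) ≤ t * (512 * (r + 2)) :=
            Nat.mul_le_mul_right _ (not_lt.1 ht)
          have h5 : ((4 * d * (512 * (r + 2)) : ℕ) : ℝ) ≤ (t * (512 * (r + 2)) : ℕ) := by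
            exact_mod_cast h4
          rw [hD]
          push_cast at h5 ⊢
          linarith only [h5]
      have h4 := sup_mul_sup (by simp only [Left.neg_nonpos_iff, Nat.ofNat_pos, mul_nonneg_iff_of_pos_left, Nat.cast_nonneg]) hY0 hY1 (mul_mem_mul h3 h2)
      have e : S.cst (Real.exp (-(i : ℝ))) * u =
          x⁻¹ ^ (256 * d) * (lam + 1) ^ i * (x ^ (256 * d - i) * u) := by
        obtain ⟨k, hk⟩ := Nat.exists_eq_add_of_le hi.le
        rw [hlam1, hk, Nat.add_sub_cancel_left, show (-(i : ℝ)) = i * (-1) by ring,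
          Real.exp_nat_mul, map_pow, mul_pow, pow_add, inv_pow, inv_pow]
        field_simp
      rw [e]; exact h4)
  have h5 := (finrank_mul_le (im_fg (K := S.K) (fun t => x⁻¹ ^ (256 * d) * lam ^ t) (4 * d))
    (UU_fg β W φ (J + 256 * d) (4 * D) (R + 256 * d))).trans
    (Nat.mul_le_mul (finrank_im _ _) (UU_four β W φ _ D _))
  have h6 : d * (2 * finrank S.K (UU S.K β W φ J D R)) ≤
      d * finrank S.K (UU S.K β W φ (J + 256 * d) D (R + 256 * d)) := by
    simp only [Y0] at key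
    linarith only [key, h5]
  exact Nat.le_of_mul_le_mul_left h6 hd

end H25E

end

section
/-! Sums of few shifted blocks do not approximate `e`; digits (helper25). -/

open Filter

namespace H25E

open Sc

theorem thmS (b : ℕ) (hb : 2 ≤ b) (r C : ℕ) (I : Type) [Fintype I] :
    ∀ᶠ l : ℕ in atTop, ∀ (lab : I → Fin r) (B : Fin r → ℤ) (s : I → ℕ),
      (∀ a, |(B a : ℝ)| ≤ C * b ^ l) →
      1 / (b : ℝ) ^ (512 * (r + 2) * l) <
        |Real.exp 1 - ∑ i, (B (lab i) : ℝ) / b ^ l / b ^ s i| := by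
  classical
  by_contra hcon
  rw [not_eventually] at hcon
  have hne := frequently_iff_neBot.1 hcon
  let U := Ultrafilter.of (atTop ⊓ 𝓟 {l : ℕ | ¬∀ (lab : I → Fin r) (B : Fin r → ℤ) (s : I → ℕ),
      (∀ a, |(B a : ℝ)| ≤ C * b ^ l) →
      1 / (b : ℝ) ^ (512 * (r + 2) * l) <
        |Real.exp 1 - ∑ i, (B (lab i) : ℝ) / b ^ l / b ^ s i|})
  have hU1 : (U : Filter ℕ) ≤ atTop := (Ultrafilter.of_le _).trans inf_le_left
  have hb1 : (1 : ℝ) < b := by exact_mod_cast hb
  have hb0 : (0 : ℝ) < b := by linarith only [hb1]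
  have hU2 : ∀ᶠ l in U, ∃ lab : I → Fin r, ∃ Bs : (Fin r → ℤ) × (I → ℕ),
      (∀ a, |(Bs.1 a : ℝ)| ≤ C * b ^ l) ∧ |Real.exp 1 - ∑ i, (Bs.1 (lab i) : ℝ) / b ^ l /
        b ^ Bs.2 i| ≤ 1 / (b : ℝ) ^ (512 * (r + 2) * l) := by
    filter_upwards [le_principal_iff.1 ((Ultrafilter.of_le _).trans inf_le_right)] with l hl
    push Not at hl
    obtain ⟨lab, B, s, h1, h2⟩ := hl
    exact ⟨lab, (B, s), h1, h2⟩
  obtain ⟨lab, hU2⟩ := Ultrafilter.eventually_exists_iff.1 hU2
  obtain ⟨Bs, hU2⟩ := hU2.choice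
  let S : Sc := ⟨U, fun l => l * Real.log b,
    (tendsto_natCast_atTop_atTop.atTop_mul_const (Real.log_pos hb1)).mono_left hU1⟩
  have hX : ∀ k : ℕ, S.Xp k = S.gm fun l => (b : ℝ) ^ (k * l) := fun k => by
    rw [Xp]; congr 1; funext l
    rw [← mul_assoc, ← Nat.cast_mul, Real.exp_nat_mul, Real.exp_log hb0]
  have hX' : ∀ k : ℕ, S.Xp (-k) = S.gm fun l => 1 / (b : ℝ) ^ (k * l) := fun k => by
    rw [Xp]; congr 1; funext l
    rw [neg_mul, Real.exp_neg, ← mul_assoc, ← Nat.cast_mul, Real.exp_nat_mul, Real.exp_log hb0,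
      one_div]
  have hX1 : S.Xp 1 = S.gm fun l => (b : ℝ) ^ l := by simpa using hX 1
  have hX1' : S.Xp (-1) = S.gm fun l => 1 / (b : ℝ) ^ l := by simpa using hX' 1
  obtain ⟨Λ, hΛ⟩ : ∃ Λ, Λ = 512 * (r + 2) := ⟨_, rfl⟩
  rw [← hΛ] at hU2
  let s : ℕ → I → ℕ := fun l i => min ((Bs l).2 i) (Λ * l)
  have hβ : ∀ a, S.Bd 0 (S.gm fun l => ((Bs l).1 a : ℝ) / b ^ l) := fun a =>
    (Bd_cst C).of_le (by
      rw [cst_def, gm_abs, gm_abs, gm_le]
      filter_upwards [hU2] with l hl
      rw [abs_div, abs_of_pos (pow_pos hb0 l), div_le_iff₀ (pow_pos hb0 l), Nat.abs_cast]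
      exact hl.1 a)
  refine germ_contra S r (fun a => S.gm fun l => ((Bs l).1 a : ℝ) / b ^ l) lab
    (fun i => S.gm fun l => 1 / (b : ℝ) ^ s l i)
    (fun m => S.gm fun l => 1 / (b : ℝ) ^ ((∑ i, m i * s l i) % l))
    (hX1 ▸ mem_Zh.2 ⟨fun l => b ^ l, by simp⟩) (fun a => ⟨hβ a, 1, one_mem _, one_ne_zero, ?_⟩)
    (fun m => ⟨Bd_one.of_le ?_, 1, one_mem _, one_ne_zero, ?_⟩) ?_ (fun i m => ?_) ?_
  · refine mem_Zh.2 ⟨fun l => (Bs l).1 a, ?_⟩
    rw [one_mul, hX1, gm_mul]
    congr 1; funext l; field_simp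
  · rw [gm_one, gm_abs, gm_abs, gm_le]
    refine Eventually.of_forall fun l => ?_
    rw [abs_one, abs_of_pos (by positivity), div_le_one (by positivity)]
    exact one_le_pow₀ hb1.le
  · refine mem_Zh.2 ⟨fun l => b ^ (l - (∑ i, m i * s l i) % l), ?_⟩
    rw [one_mul, hX1, gm_mul, gm_eq]
    filter_upwards [hU1 (eventually_gt_atTop 0)] with l hl
    have := (Nat.mod_lt (∑ i, m i * s l i) hl).le
    push_cast
    rw [pow_sub₀ _ hb0.ne' this, one_div]
  · exact gm_ne_zero.2 (Eventually.of_forall fun l => by positivity)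
  · have h1 : ∀ᶠ l in S.U, ∃ c : Fin (Λ + 1),
        (s l i + (∑ i, m i * s l i) % l) / l = c := by
      filter_upwards [hU1 (eventually_gt_atTop 0)] with l hl
      have h2 := Nat.mod_lt (∑ i, m i * s l i) hl
      have h3 : s l i ≤ Λ * l := min_le_right _ _
      exact ⟨⟨_, (Nat.div_lt_iff_lt_mul hl).2 (by rw [add_mul]; omega)⟩, rfl⟩
    obtain ⟨c, hc⟩ := Ultrafilter.eventually_exists_iff.1 h1
    refine ⟨c, ?_⟩
    rw [hX1', gm_pow, gm_mul, gm_mul, gm_eq]
    filter_upwards [hc] with l hl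
    have e1 : ∑ i', (m + Pi.single i 1 : I → ℕ) i' * s l i' = s l i + ∑ i, m i * s l i := by
      simp only [Pi.add_apply, add_mul, Finset.sum_add_distrib]
      rw [add_comm, Finset.sum_eq_single i] <;> simp +contextual only [Pi.single_eq_same, one_mul, Nat.add_left_cancel_iff, Finset.mem_univ, ne_eq, not_false_eq_true, Pi.single_eq_of_ne, zero_mul, implies_true, imp_self, not_true_eq_false, IsEmpty.forall_iff]
    have e2 := Nat.div_add_mod (s l i + (∑ i, m i * s l i) % l) l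
    rw [hl, Nat.add_mod_mod] at e2
    rw [e1, one_div, one_div, one_div, one_div, inv_pow, ← pow_mul, ← mul_inv, ← mul_inv,
      ← pow_add, ← pow_add, e2]
  · rw [← hΛ]
    have e : S.cst (Real.exp 1) - ∑ i, (S.gm fun l => ((Bs l).1 (lab i) : ℝ) / b ^ l) *
        (S.gm fun l => 1 / (b : ℝ) ^ s l i) =
        S.gm (fun l => Real.exp 1 - ∑ i, ((Bs l).1 (lab i) : ℝ) / b ^ l / b ^ (Bs l).2 i) +
        ∑ i, (S.gm fun l => ((Bs l).1 (lab i) : ℝ) / b ^ l) *
          S.gm fun l => 1 / (b : ℝ) ^ (Bs l).2 i - 1 / (b : ℝ) ^ s l i := by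
      simp only [cst_def, gm_mul, gm_sum, gm_add, gm_sub]
      congr 1; funext l
      simp only [mul_sub, Finset.sum_sub_distrib, mul_one_div]
      ring
    rw [e]
    refine ((Bd_Xp _).of_le ?_).add (Bd_sum _ _ fun i _ => (hβ _).mul0 ((Bd_Xp _).of_le ?_))
    · rw [hX', gm_abs, gm_abs, gm_le]
      filter_upwards [hU2] with l hl
      exact hl.2.trans (le_abs_self _)
    · rw [hX', gm_abs, gm_abs, gm_le]
      refine Eventually.of_forall fun l => ?_
      simp only [s]
      rcases le_total ((Bs l).2 i) (Λ * l) with h | h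
      · rw [min_eq_left h, sub_self, abs_zero]; exact abs_nonneg _
      · have h1 : 1 / (b : ℝ) ^ (Bs l).2 i ≤ 1 / (b : ℝ) ^ (Λ * l) :=
          one_div_le_one_div_of_le (by positivity) (pow_le_pow_right₀ hb1.le h)
        have h2 : 0 ≤ 1 / (b : ℝ) ^ (Bs l).2 i := by positivity
        rw [min_eq_right h, abs_sub_comm, abs_of_nonneg (by linarith only [h1]),
          abs_of_nonneg (by positivity)]
        linarith only [h2]

/-- The block of length `m` at position `i`. -/
def wd {α : Type} (d : ℕ → α) (i m : ℕ) : List α := (List.range m).map fun t => d (i + t)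

lemma wd_length {α : Type} (d : ℕ → α) (i m : ℕ) : (wd d i m).length = m := by simp [wd]

lemma wd_add {α : Type} (d : ℕ → α) (i m m' : ℕ) :
    wd d i (m + m') = wd d i m ++ wd d (i + m) m' := by
  simp [wd, List.range_add, Function.comp_def, add_assoc]

lemma wd_congr {α : Type} (d : ℕ → α) {i j m : ℕ} (h : ∀ t < m, d (i + t) = d (j + t)) :
    wd d i m = wd d j m := List.map_congr_left fun t ht => h t (List.mem_range.1 ht)

/-- The integer with the given digits, most significant first. -/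
def lv (b : ℕ) (w : List ℕ) : ℕ := w.foldl (fun a x => b * a + x) 0

lemma lv_succ (b : ℕ) (d : ℕ → ℕ) (i m : ℕ) :
    lv b (wd d i (m + 1)) = b * lv b (wd d i m) + d (i + m) := by
  simp [lv, wd, List.range_succ]

lemma lv_zero (b : ℕ) (d : ℕ → ℕ) (i : ℕ) : lv b (wd d i 0) = 0 := rfl

lemma lv_lt {b : ℕ} {d : ℕ → ℕ} (hd : ∀ i, d i < b) (i m : ℕ) : lv b (wd d i m) < b ^ m := by
  induction m with
  | zero => simp [lv_zero]
  | succ m ih =>
    rw [lv_succ, pow_succ']
    have := hd (i + m)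
    have := Nat.mul_le_mul_left b (Nat.succ_le_of_lt ih)
    rw [Nat.mul_succ] at this
    omega

lemma lv_add (b : ℕ) (d : ℕ → ℕ) (i m m' : ℕ) :
    lv b (wd d i (m + m')) = b ^ m' * lv b (wd d i m) + lv b (wd d (i + m) m') := by
  induction m' with
  | zero => simp [lv_zero]
  | succ k ih => rw [← add_assoc, lv_succ, lv_succ, ih, add_assoc i]; ring

/-- The real value of a block. -/
noncomputable def rv (b : ℕ) (d : ℕ → ℕ) (i m : ℕ) : ℝ := (lv b (wd d i m) : ℝ) / b ^ m

lemma rv_tel {b : ℕ} (hb : 1 ≤ b) (d : ℕ → ℕ) (z : ℕ → ℕ) (hz : Monotone z) (P : ℕ) :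
    rv b d (z 0) (z P - z 0) =
      ∑ t ∈ Finset.range P, rv b d (z t) (z (t + 1) - z t) / b ^ (z t - z 0) := by
  induction P with
  | zero => simp only [rv, tsub_self, lv_zero, CharP.cast_eq_zero, pow_zero, div_one, Finset.range_zero, Finset.sum_empty]
  | succ P ih =>
    have h1 := hz (Nat.zero_le P)
    have h2 : z P ≤ z (P + 1) := hz (Nat.le_succ P)
    have hb0 : (b : ℝ) ≠ 0 := by positivity
    rw [Finset.sum_range_succ, ← ih,
      show z (P + 1) - z 0 = (z P - z 0) + (z (P + 1) - z P) by omega]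
    simp only [rv]
    rw [lv_add, Nat.add_sub_cancel' h1, pow_add]
    push_cast
    field_simp

/-- The digits of `e` in base `b`. -/
noncomputable def dg (b i : ℕ) : ℕ := ⌊(b : ℝ) ^ i * Real.exp 1⌋₊ % b

lemma dg_lt {b : ℕ} (hb : 2 ≤ b) (i : ℕ) : dg b i < b := Nat.mod_lt _ (by omega)

lemma floor_eq {b : ℕ} (hb : 2 ≤ b) (n : ℕ) :
    ⌊(b : ℝ) ^ n * Real.exp 1⌋₊ = b ^ (n + 1) * (2 / b) + lv b (wd (dg b) 0 (n + 1)) := by
  have hb0 : (b : ℝ) ≠ 0 := by positivity
  induction n with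
  | zero =>
    have h : ⌊Real.exp 1⌋₊ = 2 := (Nat.floor_eq_iff (Real.exp_pos 1).le).2
      ⟨by exact_mod_cast Real.exp_one_gt_two.le, by exact_mod_cast Real.exp_one_lt_three⟩
    simp [lv_succ, lv_zero, dg, h, Nat.div_add_mod]
  | succ n ih =>
    have h : ⌊(b : ℝ) ^ (n + 1) * Real.exp 1⌋₊ / b = ⌊(b : ℝ) ^ n * Real.exp 1⌋₊ := by
      rw [← Nat.floor_div_natCast]; congr 1; field_simp; ring
    rw [lv_succ, zero_add, dg, ← add_assoc, pow_succ' b (n + 1), mul_assoc, ← mul_add, ← ih, ← h,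
      Nat.div_add_mod]

lemma approx {b : ℕ} (hb : 2 ≤ b) (n : ℕ) :
    |Real.exp 1 - (b * (2 / b : ℕ) + b * rv b (dg b) 0 (n + 1))| ≤ 1 / (b : ℝ) ^ n := by
  have hb0 : (0 : ℝ) < b := by positivity
  have h1 := Nat.floor_le (a := (b : ℝ) ^ n * Real.exp 1) (by positivity)
  have h2 := Nat.lt_floor_add_one ((b : ℝ) ^ n * Real.exp 1)
  rw [floor_eq hb] at h1 h2
  have e : Real.exp 1 - (b * (2 / b : ℕ) + b * rv b (dg b) 0 (n + 1)) =
      ((b : ℝ) ^ n * Real.exp 1 - (b ^ (n + 1) * (2 / b) + lv b (wd (dg b) 0 (n + 1)) : ℕ)) /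
        b ^ n := by
    rw [rv]; generalize 2 / b = c; push_cast; field_simp; ring
  rw [e, abs_div, abs_of_pos (pow_pos hb0 n)]
  gcongr
  rw [abs_le]
  constructor <;> linarith only [h1, h2]

lemma exists_enum (T : Finset ℕ) (n X : ℕ) (hT : T.card ≤ n) (hX : ∀ v ∈ T, v ≤ X) :
    ∃ B : Fin n → ℕ, (∀ a, B a ≤ X) ∧ ∀ v ∈ T, ∃ a, B a = v := by
  refine ⟨fun a => T.toList.getD a 0, fun a => ?_, fun v hv => ?_⟩
  · by_cases h : (a : ℕ) < T.toList.length
    · simp only [List.getD_eq_getElem _ _ h]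
      exact hX _ (Finset.mem_toList.1 (List.getElem_mem h))
    · simp only [List.getD_eq_default _ _ (not_lt.1 h)]
      exact Nat.zero_le _
  · obtain ⟨i, hi, e⟩ := List.getElem_of_mem (Finset.mem_toList.2 hv)
    exact ⟨⟨i, by rw [Finset.length_toList] at hi; omega⟩, by
      simp only [List.getD_eq_getElem _ _ hi, e]⟩

theorem thmW (b : ℕ) (hb : 2 ≤ b) (r : ℕ) (I : Type) [Fintype I] :
    ∀ᶠ l : ℕ in atTop, ∀ (pos len s : I → ℕ) (V : Finset (List ℕ)) (n : ℕ), V.card ≤ r →
      (∀ i, len i ≤ l) → (∀ i, wd (dg b) (pos i) (len i) ∈ V) →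
      rv b (dg b) 0 n = ∑ i, rv b (dg b) (pos i) (len i) / b ^ s i → n ≤ 512 * (r + 3) * l := by
  classical
  filter_upwards [thmS b hb (r + 1) b (Option I)] with l hl pos len s V n hV hlen hw hn
  by_contra hcon
  obtain ⟨n, rfl⟩ : ∃ k, n = k + 1 := ⟨n - 1, by omega⟩
  have hb0 : (0 : ℝ) < b := by positivity
  let val : I → ℕ := fun i => lv b (wd (dg b) (pos i) (len i)) * b ^ (l - len i)
  obtain ⟨B, hB1, hB2⟩ := exists_enum (insert (2 / b * b ^ l) (Finset.univ.image val)) (r + 1)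
    (b ^ l) (by
      refine (Finset.card_insert_le _ _).trans (Nat.succ_le_succ (le_trans ?_ hV))
      refine le_trans (Finset.card_le_card ?_)
        (Finset.card_image_le (f := fun v => lv b v * b ^ (l - v.length)))
      intro v hv
      obtain ⟨i, -, rfl⟩ := Finset.mem_image.1 hv
      exact Finset.mem_image.2 ⟨_, hw i, by rw [wd_length]⟩) (by
      intro v hv
      rcases Finset.mem_insert.1 hv with rfl | hv
      · have : 2 / b ≤ 1 := (Nat.div_le_iff_le_mul_add_pred (by omega)).2 (by omega)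
        simpa only [ge_iff_le, one_mul] using Nat.mul_le_mul_right (b ^ l) this
      · obtain ⟨i, -, rfl⟩ := Finset.mem_image.1 hv
        calc val i ≤ b ^ len i * b ^ (l - len i) :=
              Nat.mul_le_mul_right _ (lv_lt (dg_lt hb) _ _).le
          _ = b ^ l := by rw [← pow_add, Nat.add_sub_cancel' (hlen i)])
  obtain ⟨a0, ha0⟩ := hB2 _ (Finset.mem_insert_self _ _)
  choose a ha using fun i => hB2 _
    (Finset.mem_insert_of_mem (Finset.mem_image_of_mem val (Finset.mem_univ i)))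
  have h1 := hl (fun o => o.elim a0 a) (fun a => b * B a) (fun o => o.elim 0 s) (fun a => by
    push_cast
    rw [abs_of_nonneg (by positivity)]
    gcongr
    exact_mod_cast hB1 a)
  have e : ∑ o : Option I, (((b * B (o.elim a0 a) : ℤ)) : ℝ) / b ^ l / b ^ (o.elim 0 s) =
      b * (2 / b : ℕ) + b * rv b (dg b) 0 (n + 1) := by
    rw [Fintype.sum_option, hn, Finset.mul_sum]
    simp only [Option.elim, ha0, ha, val, rv]
    congr 1
    · generalize 2 / b = c; push_cast; field_simp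
    · refine Finset.sum_congr rfl fun i _ => ?_
      push_cast
      rw [pow_sub₀ _ hb0.ne' (hlen i)]
      field_simp
  rw [e] at h1
  have h2 := h1.trans_le (approx hb n)
  rw [one_div_lt_one_div (by positivity) (by positivity)] at h2
  have h3 := (pow_lt_pow_iff_right₀ (show (1 : ℝ) < b by exact_mod_cast hb)).1 h2
  rw [show r + 1 + 2 = r + 3 by ring] at h3
  omega

end H25E

end

section
/-! Words of linear complexity and morphic words are sums of few blocks (helper25). -/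

open Filter

namespace H25E

lemma wd_eq_iff {α : Type} (d : ℕ → α) {i j m : ℕ} :
    wd d i m = wd d j m ↔ ∀ t < m, d (i + t) = d (j + t) := by
  simp only [wd, List.map_inj_left, List.mem_range]

/-- Positions where the block of length `n` occurs for the first time. -/
def New (d : ℕ → ℕ) (n : ℕ) : Set ℕ := {i | ∀ j < i, wd d j n ≠ wd d i n}

variable {d : ℕ → ℕ} {b : ℕ}

lemma finite_win (hd : ∀ i, d i < b) (n : ℕ) :
    {w : Fin n → ℕ | ∃ i : ℕ, ∀ j : Fin n, w j = d (i + j)}.Finite := by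
  refine (Set.Finite.pi' (fun _ : Fin n => Set.finite_Iio b)).subset ?_
  rintro w ⟨i, hi⟩ j
  rw [hi]; exact hd _

lemma new_injOn (n : ℕ) : Set.InjOn (fun i (j : Fin n) => d (i + j)) (New d n) := by
  intro i hi j hj h
  have e : wd d i n = wd d j n := (wd_eq_iff d).2 fun t ht => congrFun h ⟨t, ht⟩
  rcases lt_trichotomy i j with h1 | h1 | h1
  · exact absurd e (hj i h1)
  · exact h1
  · exact absurd e.symm (hi j h1)

lemma finite_new (hd : ∀ i, d i < b) (n : ℕ) : (New d n).Finite :=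
  Set.Finite.of_injOn (t := {w : Fin n → ℕ | ∃ i : ℕ, ∀ j : Fin n, w j = d (i + j)})
    (fun i _ => ⟨i, fun _ => rfl⟩) (new_injOn n) (finite_win hd n)

lemma ncard_new_le (hd : ∀ i, d i < b) (n : ℕ) : (New d n).ncard ≤
    {w : Fin n → ℕ | ∃ i : ℕ, ∀ j : Fin n, w j = d (i + j)}.ncard :=
  Set.ncard_le_ncard_of_injOn _ (fun i _ => ⟨i, fun _ => rfl⟩) (new_injOn n) (finite_win hd n)

lemma exists_new (d : ℕ → ℕ) (n i : ℕ) : ∃ j ∈ New d n, wd d j n = wd d i n := by
  classical
  have h : ∃ j, wd d j n = wd d i n := ⟨i, rfl⟩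
  exact ⟨Nat.find h, fun j hj e => Nat.find_min h hj (e.trans (Nat.find_spec h)), Nat.find_spec h⟩

lemma new_mono {n n' : ℕ} (h : n ≤ n') : New d n ⊆ New d n' := fun _ hi j hj e =>
  hi j hj ((wd_eq_iff d).2 fun t ht => (wd_eq_iff d).1 e t (by omega))

lemma new_pred {n i : ℕ} (hi : i + 1 ∈ New d n) : i ∈ New d (n + 1) := fun j hj e =>
  hi (j + 1) (by omega) ((wd_eq_iff d).2 fun t ht => by
    have := (wd_eq_iff d).1 e (t + 1) (by omega)
    rwa [add_assoc, add_assoc, add_comm 1 t])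

lemma exists_src (hd : ∀ i, d i < b) {n c : ℕ} (h1 : (New d n).ncard ≤ c * n)
    (h2 : (New d (n + 1)).ncard ≤ (New d n).ncard + c) :
    ∃ Src : Finset ℕ, Src.card ≤ (2 * c + 1) * n ∧ ∀ i ∈ New d n, ∀ t < n, i + t ∈ Src := by
  classical
  let N := (finite_new hd n).toFinset
  let St := (finite_new hd (n + 1)).toFinset \ N
  rw [Set.ncard_eq_toFinset_card _ (finite_new hd n)] at h1 h2
  rw [Set.ncard_eq_toFinset_card _ (finite_new hd (n + 1))] at h2
  have hSt : St.card ≤ c := by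
    rw [Finset.card_sdiff_of_subset
      (Set.Finite.toFinset_subset_toFinset.2 (new_mono (Nat.le_succ n)))]
    exact Nat.sub_le_iff_le_add'.2 h2
  refine ⟨N.image (· + (n - 1)) ∪ Finset.range n ∪
    St.biUnion fun s => Finset.Ico (s + 1) (s + 1 + n), ?_, fun i hi t ht => ?_⟩
  · have e1 : (N.image (· + (n - 1))).card ≤ c * n := Finset.card_image_le.trans h1
    have e2 : (St.biUnion fun s => Finset.Ico (s + 1) (s + 1 + n)).card ≤ c * n :=
      (Finset.card_biUnion_le_card_mul _ _ n fun s _ => by simp only [Nat.card_Ico, add_tsub_cancel_left, Std.le_refl]).trans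
        (Nat.mul_le_mul_right _ hSt)
    have e3 := Finset.card_union_le (N.image (· + (n - 1))) (Finset.range n)
    rw [Finset.card_range] at e3
    refine (Finset.card_union_le _ _).trans ?_
    linarith only [e1, e2, e3]
  · simp only [Finset.mem_union, Finset.mem_image, Finset.mem_range, Finset.mem_biUnion,
      Finset.mem_Ico]
    by_cases hy : i + t < n
    · exact Or.inl (Or.inr hy)
    have h : ∃ j, i + t - (n - 1) ≤ j ∧ j ∈ New d n := ⟨i, by omega, hi⟩
    have h3 := Nat.find_spec h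
    have h4 : Nat.find h ≤ i := Nat.find_min' h ⟨by omega, hi⟩
    rcases h3.1.eq_or_lt with h5 | h5
    · exact Or.inl (Or.inl ⟨Nat.find h, (Set.Finite.mem_toFinset _).2 h3.2, by omega⟩)
    · obtain ⟨s, hs⟩ : ∃ s, Nat.find h = s + 1 := ⟨Nat.find h - 1, by omega⟩
      refine Or.inr ⟨s, Finset.mem_sdiff.2 ⟨(Set.Finite.mem_toFinset _).2
        (new_pred (hs ▸ h3.2)), fun h6 => ?_⟩, by omega, by omega⟩
      exact Nat.find_min h (m := s) (by omega) ⟨by omega, (Set.Finite.mem_toFinset _).1 h6⟩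

lemma exists_cells (Src : Finset ℕ) {l : ℕ} (hl : 0 < l) : ∃ Ce : Finset ℕ,
    Ce.card * l ≤ Src.card ∧ ∀ m, (∀ t < l, m * l + t ∈ Src) → m ∈ Ce := by
  classical
  refine ⟨(Src.image (· / l)).filter fun m => ∀ t < l, m * l + t ∈ Src, ?_, fun m hm => ?_⟩
  · rw [← Finset.card_range l, ← Finset.card_product, Finset.card_range]
    refine Finset.card_le_card_of_injOn (fun a => a.1 * l + a.2) (fun a ha => ?_)
      fun a ha a' ha' e => ?_
    · simp only [Finset.coe_product, Set.mem_prod, Finset.mem_coe, Finset.mem_filter,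
        Finset.mem_range] at ha
      exact ha.1.2 _ ha.2
    · simp only [Finset.coe_product, Set.mem_prod, Finset.mem_coe, Finset.mem_range] at ha ha'
      have e1 := congrArg (· / l) e
      have e2 := congrArg (· % l) e
      simp only [Nat.add_comm (_ * l), Nat.add_mul_div_right _ _ hl, Nat.div_eq_of_lt ha.2,
        Nat.div_eq_of_lt ha'.2, Nat.add_mul_mod_self_right, Nat.mod_eq_of_lt ha.2,
        Nat.mod_eq_of_lt ha'.2, zero_add] at e1 e2
      exact Prod.ext e1 e2
  · exact Finset.mem_filter.2 ⟨Finset.mem_image.2 ⟨m * l + 0, hm 0 hl, by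
      simp [Nat.mul_div_cancel _ hl]⟩, hm⟩

lemma exists_flat (q : ℕ → ℕ) (k c : ℕ) (h : q (2 * k) < (c + 1) * k) :
    ∃ n, k ≤ n ∧ n < 2 * k ∧ q (n + 1) ≤ q n + c := by
  by_contra hcon
  push Not at hcon
  have : ∀ i ≤ k, (c + 1) * i ≤ q (k + i) := by
    intro i
    induction i with
    | zero => simp
    | succ i ih =>
      intro hi
      have h1 := hcon (k + i) (by omega) (by omega)
      have h2 := ih (by omega)
      rw [← add_assoc, mul_add]
      omega
  have := this k le_rfl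
  rw [← two_mul] at this
  omega

lemma arith {M : ℕ} (h : 1 ≤ M) : 512 * (3 * M + 1 + 3) ≤ M * 3584 := by linarith

theorem complexity (b : ℕ) (hb : 2 ≤ b) (C : ℕ) : ∀ᶠ n : ℕ in atTop,
    C * n ≤ {w : Fin n → ℕ | ∃ i : ℕ, ∀ j : Fin n, w j = dg b (i + j)}.ncard := by
  classical
  obtain ⟨M, hM⟩ : ∃ M, M = 7168 * (2 * (3 * C) + 1) := ⟨_, rfl⟩
  obtain ⟨κ, hκ⟩ : ∃ κ, κ = 7169 := ⟨_, rfl⟩
  have hM1 : 1 ≤ M := hM ▸ Nat.mul_pos (by norm_num) (Nat.succ_pos _)
  obtain ⟨l0, hl0⟩ := eventually_atTop.1 (thmW b hb (3 * M + 1) (Fin M × Fin κ))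
  filter_upwards [eventually_ge_atTop (2 * (7168 * (l0 + 2)))] with n0 hn0
  by_contra hcon
  have hd := dg_lt hb
  have hq : (New (dg b) (2 * (n0 / 2))).ncard ≤ 3 * C * (n0 / 2) := by
    have h1 := Set.ncard_le_ncard (new_mono (show 2 * (n0 / 2) ≤ n0 by omega)) (finite_new hd n0)
    have h2 := ncard_new_le hd n0
    have h3 : C * n0 ≤ C * (3 * (n0 / 2)) := Nat.mul_le_mul_left _ (by omega)
    linarith only [hcon, h1, h2, h3]
  obtain ⟨n, hn1, hn2, hn3⟩ := exists_flat (fun n => (New (dg b) n).ncard) (n0 / 2) (3 * C)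
    (by rw [add_mul]; omega)
  obtain ⟨Src, hS1, hS2⟩ := exists_src hd ((Set.ncard_le_ncard (new_mono hn2.le)
    (finite_new hd _)).trans (hq.trans (Nat.mul_le_mul_left _ hn1))) hn3
  obtain ⟨l, hl⟩ : ∃ l, l = n / 7168 + 1 := ⟨_, rfl⟩
  have hl1 : 0 < l := by omega
  have hl2 : n ≤ 7168 * l := by omega
  have hl3 : 7168 * l < 2 * n := by omega
  obtain ⟨Ce, hC1, hC2⟩ := exists_cells Src hl1
  have hCe : Ce.card ≤ M := by
    refine Nat.le_of_mul_le_mul_right ((hC1.trans hS1).trans ?_) hl1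
    rw [hM, mul_comm 7168, mul_assoc]
    exact Nat.mul_le_mul_left _ hl2
  choose i hi1 hi2 using fun a => exists_new (dg b) n (a * n)
  let z : ℕ → ℕ → ℕ := fun a t => min (i a + n) (max (i a) ((i a / l + t) * l))
  have hz : ∀ a, Monotone (z a) := fun a t t' h =>
    min_le_min le_rfl (max_le_max le_rfl (Nat.mul_le_mul_right _ (by omega)))
  have hdm : ∀ a, i a / l * l ≤ i a ∧ i a < i a / l * l + l := fun a =>
    ⟨Nat.div_mul_le_self _ _, by
      have := Nat.div_add_mod' (i a) l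
      have := Nat.mod_lt (i a) hl1
      omega⟩
  have hz0 : ∀ a, z a 0 = i a := fun a => by
    have := hdm a
    simp only [z, add_zero]; omega
  have hz1 : ∀ a, z a κ = i a + n := fun a => by
    have := hdm a
    simp only [z, add_mul, hκ]; omega
  have key := hl0 l (by omega) (fun x => z x.1 x.2) (fun x => z x.1 (x.2 + 1) - z x.1 x.2)
    (fun x => z x.1 x.2 - i x.1 + x.1 * n)
    ((Finset.range M).image (fun a => wd (dg b) (z a 0) (z a 1 - z a 0)) ∪
      (Finset.range M).image (fun a => wd (dg b) ((i a + n) / l * l) (i a + n - (i a + n) / l * l))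
      ∪ Ce.image (fun m => wd (dg b) (m * l) l) ∪ {[]}) (M * n) (by
      refine (Finset.card_union_le _ _).trans (Nat.add_le_add ?_ (by simp))
      refine (Finset.card_union_le _ _).trans ?_
      rw [show 3 * M = M + M + M by ring]
      refine Nat.add_le_add ((Finset.card_union_le _ _).trans (Nat.add_le_add ?_ ?_))
        (Finset.card_image_le.trans hCe) <;> exact Finset.card_image_le.trans (by simp))
    (fun x => by simp only [z, ← add_assoc, add_mul, one_mul]; omega) (fun x => by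
      obtain ⟨a, t⟩ := x
      simp only [Finset.mem_union, Finset.mem_image, Finset.mem_range, Finset.mem_singleton]
      rcases Nat.eq_zero_or_pos t with h0 | h0
      · exact Or.inl (Or.inl (Or.inl ⟨a, a.2, by rw [h0]⟩))
      have h1 := hdm a
      have h2 : l ≤ t * l := Nat.le_mul_of_pos_left _ h0
      have h3 : (i a / l + t) * l = i a / l * l + t * l := add_mul _ _ _
      have h4 : (i a / l + (t + 1)) * l = (i a / l + t) * l + l := by ring
      by_cases h5 : (i a / l + t) * l + l ≤ i a + n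
      · have e1 : z a t = (i a / l + t) * l := by simp only [z]; omega
        have e2 : z a (t + 1) - z a t = l := by simp only [z]; omega
        refine Or.inl (Or.inr ⟨i a / l + t, hC2 _ fun s hs => ?_, by rw [e2, e1]⟩)
        have := hS2 (i a) (hi1 a) ((i a / l + t) * l + s - i a) (by omega)
        rwa [Nat.add_sub_cancel' (by omega)] at this
      by_cases h6 : i a + n ≤ (i a / l + t) * l
      · have e2 : z a (t + 1) - z a t = 0 := by simp only [z]; omega
        exact Or.inr (by rw [e2]; rfl)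
      · have e0 : (i a + n) / l = i a / l + t :=
          Nat.div_eq_of_lt_le (by omega) (by rw [add_mul _ 1, one_mul]; omega)
        have e1 : z a t = (i a / l + t) * l := by simp only [z]; omega
        have e2 : z a (t + 1) = i a + n := by simp only [z]; omega
        exact Or.inl (Or.inl (Or.inr ⟨a, a.2, by rw [e2, e1, e0]⟩))) (by
      have h1 := rv_tel (b := b) (by omega) (dg b) (fun a => a * n)
        (fun _ _ h => Nat.mul_le_mul_right _ h) M
      simp only [zero_mul, Nat.sub_zero, add_mul, one_mul, Nat.add_sub_cancel_left] at h1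
      rw [h1, Fintype.sum_prod_type, Finset.sum_range]
      refine Finset.sum_congr rfl fun a _ => ?_
      have h2 := rv_tel (b := b) (by omega) (dg b) (z a) (hz a) κ
      rw [hz0, hz1, Nat.add_sub_cancel_left, Finset.sum_range] at h2
      rw [show rv b (dg b) (a * n) n = rv b (dg b) (i a) n by rw [rv, rv, hi2], h2,
        Finset.sum_div]
      refine Finset.sum_congr rfl fun t _ => ?_
      simp only [pow_add, div_div])
  have h7 : 512 * (3 * M + 1 + 3) * l ≤ M * (3584 * l) := by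
    rw [← mul_assoc]
    exact Nat.mul_le_mul_right _ (arith hM1)
  have h8 := Nat.le_of_mul_le_mul_left (key.trans h7) hM1
  omega

theorem morphic (b : ℕ) (hb : 2 ≤ b) (A : Type) [Fintype A] (σ : A → List A) (τ : A → ℕ)
    (u : ℕ → A) (θ : ℝ) (hθ : 1 < θ)
    (hfix : ∀ n, ∃ m, (List.range n).flatMap (fun i => σ (u i)) = (List.range m).map u)
    (hdil : ∀ᶠ n : ℕ in atTop, θ * n ≤ ((List.range n).flatMap fun i => σ (u i)).length) :
    ¬ ∀ i, τ (u i) = dg b i := by
  classical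
  intro hτ
  let W : ℕ → ℕ := fun n => ((List.range n).flatMap fun i => σ (u i)).length
  have hW0 : ∀ n, (wd u 0 n).flatMap σ = wd u 0 (W n) := fun n => by
    obtain ⟨m, hm⟩ := hfix n
    have e : W n = m := by simp only [W, hm]; simp
    rw [e]
    simpa [wd, List.flatMap_map] using hm
  have hW1 : ∀ i m, W i ≤ W (i + m) ∧ (wd u i m).flatMap σ = wd u (W i) (W (i + m) - W i) := by
    intro i m
    have h1 := hW0 (i + m)
    rw [wd_add, List.flatMap_append, hW0, zero_add] at h1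
    have h2 : W i ≤ W (i + m) := by
      have := congrArg List.length h1
      rw [List.length_append, wd_length, wd_length] at this
      omega
    refine ⟨h2, ?_⟩
    rw [← Nat.add_sub_cancel' h2, wd_add, zero_add] at h1
    exact List.append_cancel_left h1
  have hWm : Monotone W := fun i j h => by
    obtain ⟨m, rfl⟩ := Nat.exists_eq_add_of_le h
    exact (hW1 i m).1
  have hWk : ∀ k i m, (List.flatMap σ)^[k] (wd u i m) =
      wd u (W^[k] i) (W^[k] (i + m) - W^[k] i) := by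
    intro k
    induction k with
    | zero => intro i m; simp
    | succ k ih =>
      intro i m
      rw [Function.iterate_succ_apply', Function.iterate_succ_apply',
        Function.iterate_succ_apply', ih, (hW1 _ _).2,
        Nat.add_sub_cancel' (hWm.iterate k (Nat.le_add_right i m))]
  have hW00 : ∀ k, W^[k] 0 = 0 := fun k => Function.iterate_fixed (by simp [W]) k
  obtain ⟨n1, hn1⟩ := eventually_atTop.1 hdil
  have hocc : ∀ c : A, ∃ i0, ∀ i, u i = c → u i0 = c := fun c => by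
    by_cases h : ∃ i, u i = c
    · exact ⟨h.choose, fun _ _ => h.choose_spec⟩
    · exact ⟨0, fun i hi => absurd ⟨i, hi⟩ h⟩
  choose oc hoc using hocc
  obtain ⟨n0, hn0, hn0'⟩ : ∃ n0, n1 + 1 ≤ n0 ∧ ∀ c, oc c + 1 ≤ n0 :=
    ⟨n1 + 1 + Finset.univ.sup oc, by omega, fun c => by
      have := Finset.le_sup (f := oc) (Finset.mem_univ c)
      omega⟩
  have hgr : ∀ k n, n0 ≤ n → n0 ≤ W^[k] n ∧ θ ^ k * n ≤ W^[k] n := by
    intro k n hn
    induction k with
    | zero => simpa using hn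
    | succ k ih =>
      rw [Function.iterate_succ_apply']
      have h1 : θ * (W^[k] n : ℕ) ≤ W (W^[k] n) := hn1 _ (by omega)
      have h2 : (n0 : ℝ) ≤ W^[k] n := by exact_mod_cast ih.1
      have h3 : (0 : ℝ) ≤ n0 := Nat.cast_nonneg _
      refine ⟨?_, ?_⟩
      · have : (n0 : ℝ) ≤ W (W^[k] n) := by nlinarith only [hθ, h1, h2]
        exact_mod_cast this
      · rw [pow_succ', mul_assoc]
        exact (mul_le_mul_of_nonneg_left ih.2 (by linarith only [hθ])).trans h1
  obtain ⟨j, hj⟩ := pow_unbounded_of_one_lt ((512 * (Fintype.card A + 3) : ℕ) : ℝ) hθ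
  obtain ⟨l0, hl0⟩ := eventually_atTop.1 (thmW b hb (Fintype.card A) (Fin (W^[j] n0)))
  obtain ⟨k, hk⟩ := pow_unbounded_of_one_lt (l0 : ℝ) hθ
  have hn00 : (1 : ℝ) ≤ n0 := by exact_mod_cast (by omega : 1 ≤ n0)
  have hl : l0 ≤ W^[k] n0 := by
    have h1 := (hgr k n0 le_rfl).2
    have h2 : 0 < θ ^ k := by positivity
    have : (l0 : ℝ) ≤ W^[k] n0 := by nlinarith only [hk, hn00, h1]
    exact_mod_cast this
  have hwd : ∀ i, wd u (W^[k] i) (W^[k] (i + 1) - W^[k] i) = (List.flatMap σ)^[k] [u i] :=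
    fun i => by rw [← hWk]; simp [wd]
  have key := hl0 _ hl (fun i => W^[k] i) (fun i => W^[k] (i + 1) - W^[k] i) (fun i => W^[k] i)
    (Finset.univ.image fun c => ((List.flatMap σ)^[k] [c]).map τ) (W^[k] (W^[j] n0))
    (Finset.card_image_le.trans (by simp only [Finset.card_univ, Std.le_refl])) (fun i => by
      have h1 := congrArg List.length (hwd i)
      have h2 := congrArg List.length (hwd (oc (u i)))
      rw [hoc _ i rfl, ← h1, wd_length, wd_length] at h2
      have h3 := hWm.iterate k (hn0' (u i))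
      omega) (fun i => Finset.mem_image.2 ⟨u i, Finset.mem_univ _, by
      rw [← hwd]; simp [wd, hτ]⟩) (by
      have h1 := rv_tel (b := b) (by omega) (dg b) (W^[k]) (hWm.iterate k) (W^[j] n0)
      simpa only [hW00, Nat.sub_zero, Finset.sum_range] using h1)
  rw [← Function.iterate_add_apply, add_comm, Function.iterate_add_apply] at key
  obtain ⟨h1, -⟩ := hgr k n0 le_rfl
  have h2 := (hgr j _ h1).2
  have h3 : (1 : ℝ) ≤ W^[k] n0 := hn00.trans (by exact_mod_cast h1)
  have h4 : (W^[j] (W^[k] n0) : ℝ) ≤ (512 * (Fintype.card A + 3) : ℕ) * (W^[k] n0 : ℕ) := by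
    exact_mod_cast key
  nlinarith only [hj, h2, h3, h4]

end H25E

end
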