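import Pool.Agent.MP_3fa95c_lc.H25.B

namespace Pool.Agent.MP_3fa95c_lc.H25.TagMachineOld

open Filter

theorem result : ∀ (b : ℕ), 2 ≤ b → ∀ (A : Type) [Fintype A] (σ : A → List A) (τ : A → ℕ)
    (u : ℕ → A) (θ : ℝ), 1 < θ →
    (∀ n : ℕ, ∃ m : ℕ, (List.range n).flatMap (fun i => σ (u i)) = (List.range m).map u) →
    (∀ᶠ n : ℕ in atTop, θ * n ≤ ((List.range n).flatMap fun i => σ (u i)).length) →
    ∃ i : ℕ, τ (u i) ≠ ⌊(b : ℝ) ^ i * Real.exp 1⌋₊ % b := by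
  intro b hb A _ σ τ u θ hθ h1 h2
  exact not_forall.1 (H25E.morphic b hb A σ τ u θ hθ h1 h2)

end Pool.Agent.MP_3fa95c_lc.H25.TagMachineOld
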